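import Pool.Agent.R567.MSub.Rep

set_option autoImplicit false

/-!
# Matroid subdivisions obtained by gluing
-/

namespace Pool.Agent.R567.MSub

open Set

variable {n : ℕ}

/-- number of common elements of two masks -/
def cnt (n K m : ℕ) : ℕ := (List.range n).countP (fun i => K.testBit i && m.testBit i)

/-- the sum of the coordinates in the set with mask `K` -/
noncomputable def gK (n K : ℕ) : (Fin n → ℝ) →ₗ[ℝ] ℝ :=
  ∑ i : Fin n, ((K.testBit i).toNat : ℝ) • LinearMap.proj i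

theorem gK_apply (n K : ℕ) (x : Fin n → ℝ) :
    gK n K x = ∑ i : Fin n, ((K.testBit i).toNat : ℝ) * x i := by
  unfold gK
  simp [LinearMap.sum_apply]

theorem cnt_eq_sum (n K m : ℕ) :
    cnt n K m = ∑ i ∈ Finset.range n, (K.testBit i && m.testBit i).toNat := by
  unfold cnt
  induction n with
  | zero => simp
  | succ n ih =>
    rw [List.range_succ, List.countP_append, ih, Finset.sum_range_succ]
    cases h : (K.testBit n && m.testBit n) <;> simp [h]

theorem gK_vec (n K m : ℕ) : gK n K (vec (S n m)) = (cnt n K m : ℝ) := by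
  rw [gK_apply, cnt_eq_sum]
  push_cast
  rw [← Fin.sum_univ_eq_sum_range (fun i => (((K.testBit i && m.testBit i).toNat : ℕ) : ℝ)) n]
  refine Finset.sum_congr rfl fun i _ => ?_
  rw [vec_S]
  cases h1 : K.testBit i <;> cases h2 : m.testBit i <;> simp

theorem PL_le {L : List ℕ} (g : (Fin n → ℝ) →ₗ[ℝ] ℝ) (c : ℝ)
    (h : ∀ m ∈ L, g (vec (S n m)) ≤ c) {x : Fin n → ℝ} (hx : x ∈ PL n L) : g x ≤ c := by
  have h1 : PL n L ⊆ {x | g x ≤ c} := PL_min (convex_halfSpace_le g.isLinear c) h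
  exact h1 hx

theorem PL_ge {L : List ℕ} (g : (Fin n → ℝ) →ₗ[ℝ] ℝ) (c : ℝ)
    (h : ∀ m ∈ L, c ≤ g (vec (S n m))) {x : Fin n → ℝ} (hx : x ∈ PL n L) : c ≤ g x := by
  have h1 : PL n L ⊆ {x | c ≤ g x} := PL_min (convex_halfSpace_ge g.isLinear c) h
  exact h1 hx

theorem exists_finite_PL (L : List ℕ) :
    ∃ T : Set (Fin n → ℝ), T.Finite ∧ PL n L = convexHull ℝ T :=
  ⟨_, finite_vecs n L, rfl⟩

/-- the face of a polytope where a valid inequality is tight, in terms of masks -/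
theorem tight_eq {L : List ℕ} (g : (Fin n → ℝ) →ₗ[ℝ] ℝ) (c : ℝ)
    (hF : IsFace (PL n L) {x | x ∈ PL n L ∧ g x = c}) :
    {x | x ∈ PL n L ∧ g x = c} =
      convexHull ℝ {x | ∃ m, (m ∈ L ∧ g (vec (S n m)) = c) ∧ x = vec (S n m)} := by
  have h1 := face_eq_convexHull hF
  rw [h1]
  congr 1
  ext x
  constructor
  · rintro ⟨⟨m, hm, rfl⟩, hx⟩
    exact ⟨m, ⟨hm, hx.2⟩, rfl⟩
  · rintro ⟨m, ⟨hm, hx⟩, rfl⟩
    exact ⟨⟨m, hm, rfl⟩, vec_mem_PL hm, hx⟩

theorem vertex_of_face {L L' : List ℕ} (hL : ∀ m ∈ L, m ∈ L') {v : Fin n → ℝ}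
    (h : IsFace (PL n L) {v}) : IsFace (PL n L') {v} := by
  have h1 := face_eq_convexHull h
  have h2 : ({x : Fin n → ℝ | ∃ m ∈ L, x = vec (S n m)} ∩ {v}).Nonempty := by
    by_contra hcon
    rw [not_nonempty_iff_eq_empty] at hcon
    rw [hcon, convexHull_empty] at h1
    exact singleton_ne_empty v h1
  obtain ⟨x, ⟨m, hm, rfl⟩, hx⟩ := h2
  rw [mem_singleton_iff] at hx
  subst hx
  refine ⟨convex_singleton _, ?_⟩
  rw [isExtreme_singleton]
  refine vec_extreme ?_ (vec_mem_PL (hL m hm))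
  have hcube : Convex ℝ {x : Fin n → ℝ | ∀ i, 0 ≤ x i ∧ x i ≤ 1} := by
    intro x hx y hy a b ha hb hab i
    simp only [Pi.add_apply, Pi.smul_apply, smul_eq_mul]
    have h3 := hx i
    have h4 := hy i
    constructor
    · have := mul_nonneg ha h3.1
      have := mul_nonneg hb h4.1
      linarith
    · have := mul_le_mul_of_nonneg_left h3.2 ha
      have := mul_le_mul_of_nonneg_left h4.2 hb
      linarith
  have h5 : PL n L' ⊆ {x : Fin n → ℝ | ∀ i, 0 ≤ x i ∧ x i ≤ 1} :=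
    PL_min hcube fun m _ i => ⟨vec_nonneg _ i, vec_le_one _ i⟩
  intro x hx i
  exact h5 hx i

/-- **Matroid subdivisions by gluing**: a central cell with the bases in `L0` and, across the
hyperplanes `g i = t i`, cells with the bases in `LL i`. -/
theorem subdivision_of_glue {M : Matroid (Fin n)} {L : List ℕ}
    (hM : ∀ B, M.IsBase B ↔ ∃ m ∈ L, B = S n m) {ι : Type} [Finite ι] (L0 : List ℕ)
    (LL : ι → List ℕ) (g : ι → (Fin n → ℝ) →ₗ[ℝ] ℝ) (t : ι → ℝ)
    (hsub0 : ∀ m ∈ L0, m ∈ L) (hsub : ∀ i, ∀ m ∈ LL i, m ∈ L)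
    (hcover : ∀ z ∈ PL n L, z ∈ PL n L0 ∨ ∃ i, z ∈ PL n (LL i))
    (h0 : ∀ i, ∀ m ∈ L0, g i (vec (S n m)) ≤ t i)
    (h1 : ∀ i, ∀ m ∈ LL i, t i ≤ g i (vec (S n m)))
    (heq : ∀ i m, (m ∈ L0 ∧ g i (vec (S n m)) = t i) ↔ (m ∈ LL i ∧ g i (vec (S n m)) = t i))
    (hij : ∀ i j, i ≠ j → ∀ m ∈ LL i, g i (vec (S n m)) + g j (vec (S n m)) ≤ t i + t j)
    (mat0 : ∃ N : Matroid (Fin n), N.E = univ ∧ polytope N = PL n L0)
    (mat : ∀ i, ∃ N : Matroid (Fin n), N.E = univ ∧ polytope N = PL n (LL i)) :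
    IsMatroidSubdivision M
      ({F | IsFace (PL n L0) F} ∪ ⋃ i, {F | IsFace (PL n (LL i)) F}) := by
  have hP : polytope M = PL n L := polytope_eq_PL hM
  have hf0 : ∀ i, IsFace (PL n L0) {x | x ∈ PL n L0 ∧ g i x = t i} := fun i =>
    isFace_of_le (convex_PL L0) (g i) (t i) fun x hx => PL_le (g i) (t i) (h0 i) hx
  have hf1 : ∀ i, IsFace (PL n (LL i)) {x | x ∈ PL n (LL i) ∧ g i x = t i} := fun i =>
    isFace_of_ge (convex_PL (LL i)) (g i) (t i) fun x hx => PL_ge (g i) (t i) (h1 i) hx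
  have hfe : ∀ i, {x | x ∈ PL n L0 ∧ g i x = t i} = {x | x ∈ PL n (LL i) ∧ g i x = t i} := by
    intro i
    rw [tight_eq (g i) (t i) (hf0 i), tight_eq (g i) (t i) (hf1 i)]
    congr 1
    ext x
    constructor
    · rintro ⟨m, hm, rfl⟩
      exact ⟨m, (heq i m).mp hm, rfl⟩
    · rintro ⟨m, hm, rfl⟩
      exact ⟨m, (heq i m).mpr hm, rfl⟩
  have hcx := glue (PL n L0) (fun i => PL n (LL i)) (fun i => {x | x ∈ PL n L0 ∧ g i x = t i})
    (exists_finite_PL L0) (fun i => exists_finite_PL (LL i)) hf0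
    (fun i => by rw [hfe i]; exact hf1 i)
    (by
      rintro i x ⟨hx0, hx1⟩
      exact ⟨hx0, le_antisymm (PL_le (g i) (t i) (h0 i) hx0) (PL_ge (g i) (t i) (h1 i) hx1)⟩)
    (by
      rintro i j hne x ⟨hx1, hx2⟩
      have h2 : (g i + g j) x ≤ t i + t j :=
        PL_le (g i + g j) (t i + t j) (fun m hm => by
          rw [LinearMap.add_apply]
          exact hij i j hne m hm) hx1
      rw [LinearMap.add_apply] at h2
      have h3 := PL_ge (g i) (t i) (h1 i) hx1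
      have h4 := PL_ge (g j) (t j) (h1 j) hx2
      constructor
      · rw [hfe i]
        exact ⟨hx1, by linarith⟩
      · rw [hfe j]
        exact ⟨hx2, by linarith⟩)
  refine ⟨hcx, ?_, ?_, ?_⟩
  · rw [hP]
    apply subset_antisymm
    · rintro x ⟨Q, hQ | hQ, hx⟩
      · exact PL_mono hsub0 (hQ.2.subset hx)
      · obtain ⟨i, hi⟩ := mem_iUnion.mp hQ
        exact PL_mono (hsub i) (hi.2.subset hx)
    · intro x hx
      rcases hcover x hx with h2 | ⟨i, hi⟩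
      · exact ⟨PL n L0, Or.inl (IsFace.refl' (convex_PL L0)), h2⟩
      · exact ⟨PL n (LL i), Or.inr (mem_iUnion.mpr ⟨i, IsFace.refl' (convex_PL (LL i))⟩), hi⟩
  · rintro v (hv | hv)
    · rw [hP]
      exact vertex_of_face hsub0 hv
    · obtain ⟨i, hi⟩ := mem_iUnion.mp hv
      rw [hP]
      exact vertex_of_face (hsub i) hi
  · rintro Q ⟨hQ | hQ, hmax⟩
    · have h2 := hmax (PL n L0) (Or.inl (IsFace.refl' (convex_PL L0))) hQ.2.subset
      obtain ⟨N, hN, hNP⟩ := mat0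
      exact ⟨N, hN, by rw [hNP, h2]⟩
    · obtain ⟨i, hi⟩ := mem_iUnion.mp hQ
      have h2 := hmax (PL n (LL i)) (Or.inr (mem_iUnion.mpr ⟨i, IsFace.refl' (convex_PL (LL i))⟩))
        hi.2.subset
      obtain ⟨N, hN, hNP⟩ := mat i
      exact ⟨N, hN, by rw [hNP, h2]⟩

/-- Boolean search for an exchange which lowers the potential. -/
def exOK (n : ℕ) (L : List ℕ) (φ : ℕ → ℕ) (m m' : ℕ) : Bool :=
  (List.range n).any fun a => (List.range n).any fun b =>
    (m.testBit a && !m'.testBit a && (m'.testBit b && !m.testBit b)) &&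
      (L.contains (m - 2 ^ a + 2 ^ b) && L.contains (m' - 2 ^ b + 2 ^ a) &&
        decide (φ (m - 2 ^ a + 2 ^ b) + φ (m' - 2 ^ b + 2 ^ a) < φ m + φ m') &&
        (List.range n).all fun i => ((m - 2 ^ a + 2 ^ b).testBit i).toNat +
          ((m' - 2 ^ b + 2 ^ a).testBit i).toNat == (m.testBit i).toNat + (m'.testBit i).toNat)

theorem exOK_spec {L : List ℕ} {φ : ℕ → ℕ} {m m' : ℕ} (h : exOK n L φ m m' = true) :
    ∃ r ∈ L, ∃ s ∈ L, vec (S n r) + vec (S n s) = vec (S n m) + vec (S n m') ∧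
      φ r + φ s < φ m + φ m' := by
  unfold exOK at h
  rw [List.any_eq_true] at h
  obtain ⟨a, -, h⟩ := h
  rw [List.any_eq_true] at h
  obtain ⟨b, -, h⟩ := h
  rw [Bool.and_eq_true] at h
  have h2 := h.2
  rw [Bool.and_eq_true, Bool.and_eq_true, Bool.and_eq_true] at h2
  obtain ⟨⟨⟨h3, h4⟩, h5⟩, h6⟩ := h2
  refine ⟨m - 2 ^ a + 2 ^ b, by simpa using h3, m' - 2 ^ b + 2 ^ a, by simpa using h4, ?_,
    of_decide_eq_true h5⟩
  refine vec_rel _ _ _ _ fun i => ?_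
  rw [List.all_eq_true] at h6
  have := h6 i (List.mem_range.mpr i.2)
  rw [beq_iff_eq] at this
  exact this

theorem exists_matroid_PL {L : List ℕ} (p : ℕ → Bool) (hne : L ≠ []) (h : exchB n p L = true)
    (hp : ∀ m, p m = true → m ∈ L) : ∃ N : Matroid (Fin n), N.E = univ ∧ polytope N = PL n L :=
  ⟨matOf n p L hne h hp, matOf_E, polytope_eq_PL fun _ => matOf_isBase⟩

end Pool.Agent.R567.MSub
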