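import Pool.Agent.R567.MSub.Order
import Pool.Agent.R567.MSub.Glue

set_option autoImplicit false

/-!
# Exchange in the members of a matroid subdivision
-/

namespace Pool.Agent.R567.MSub

open Set

variable {n : ℕ}

/-- symmetric basis exchange -/
theorem symm_exchange {α : Type*} {M : Matroid α} {B B' : Set α} (hB : M.IsBase B)
    (hB' : M.IsBase B') {e : α} (he : e ∈ B) (he' : e ∉ B') :
    ∃ f, f ∈ B' ∧ f ∉ B ∧ M.IsBase (insert f (B \ {e})) ∧ M.IsBase (insert e (B' \ {f})) := by
  have heE : e ∈ M.E := hB.subset_ground he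
  have hecl : e ∈ M.closure B' := by rw [hB'.closure_eq]; exact heE
  have hC := hB'.fundCircuit_isCircuit heE he'
  have h1 : ∃ f ∈ M.fundCircuit e B' \ {e}, f ∉ M.closure (B \ {e}) := by
    by_contra hcon
    push Not at hcon
    have h2 : M.fundCircuit e B' \ {e} ⊆ M.closure (B \ {e}) := hcon
    have h3 := M.closure_subset_closure_of_subset_closure h2
    exact hB.indep.notMem_closure_sdiff_of_mem he
      (h3 (hC.mem_closure_sdiff_singleton_of_mem (M.mem_fundCircuit e B')))
  obtain ⟨f, hf, hfcl⟩ := h1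
  have hfB' : f ∈ B' := by
    rw [M.fundCircuit_sdiff_eq_inter he'] at hf
    exact hf.2
  have hfE : f ∈ M.E := hB'.subset_ground hfB'
  have hfe : f ≠ e := fun h => he' (h ▸ hfB')
  have hfB : f ∉ B := by
    intro h
    exact hfcl (M.subset_closure (B \ {e}) (sdiff_subset.trans hB.subset_ground) ⟨h, hfe⟩)
  refine ⟨f, hfB', hfB, hB.exchange_base_of_notMem_closure he hfcl hfE, ?_⟩
  have h4 := (hB'.indep.mem_fundCircuit_iff hecl he').mp hf.1
  rw [← insert_sdiff_singleton_comm (Ne.symm hfe)] at h4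
  exact hB'.exchange_isBase_of_indep he' h4

/-- symmetric exchange in a face of a matroid polytope -/
theorem face_exchange {N : Matroid (Fin n)} {F : Set (Fin n → ℝ)} (hF : IsFace (polytope N) F)
    {B B' : Set (Fin n)} (hB : vec B ∈ F) (hB' : vec B' ∈ F) {e : Fin n} (he : e ∈ B)
    (he' : e ∉ B') :
    ∃ f, f ∈ B' ∧ f ∉ B ∧ vec (insert f (B \ {e})) ∈ F ∧ vec (insert e (B' \ {f})) ∈ F := by
  obtain ⟨f, hfB', hfB, h1, h2⟩ := symm_exchange (isBase_of_vec_mem (hF.2.subset hB))
    (isBase_of_vec_mem (hF.2.subset hB')) he he'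
  have hfe : f ≠ e := fun h => he' (h ▸ hfB')
  have hsum : vec (insert f (B \ {e})) + vec (insert e (B' \ {f})) = vec B + vec B' := by
    funext i
    simp only [Pi.add_apply, vec]
    by_cases hif : i = f
    · subst hif
      simp [indicator, hfB', hfB, hfe]
    · by_cases hie : i = e
      · subst hie
        simp [indicator, he, he', hif]
      · have e1 : ∀ A : Set (Fin n), ∀ g : Fin n, ∀ g' : Fin n, i ≠ g → i ≠ g' →
            (insert g (A \ {g'})).indicator (1 : Fin n → ℝ) i = A.indicator 1 i := by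
          intro A g g' hg hg'
          by_cases h : i ∈ A
          · rw [indicator_of_mem h,
              indicator_of_mem (show i ∈ insert g (A \ {g'}) from Or.inr ⟨h, hg'⟩)]
          · rw [indicator_of_notMem h, indicator_of_notMem]
            rintro (h' | h')
            · exact hg h'
            · exact h h'.1
        rw [e1 B f e hif hie, e1 B' e f hie hif]
  refine ⟨f, hfB', hfB, mid hF hB hB' (vec_mem_polytope h1) (vec_mem_polytope h2) hsum, ?_⟩
  refine mid hF hB hB' (vec_mem_polytope h2) (vec_mem_polytope h1) ?_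
  rw [add_comm, hsum]

/-! ### masks -/

theorem exists_maskOf (B : Set (Fin n)) : ∃ m, m < 2 ^ n ∧ B = S n m := by
  classical
  refine ⟨Nat.ofBits (fun i : Fin n => decide (i ∈ B)), Nat.ofBits_lt_two_pow _, ?_⟩
  ext i
  rw [mem_S, Nat.testBit_ofBits_lt _ _ i.2]
  simp

theorem S_inj {m m' : ℕ} (hm : m < 2 ^ n) (hm' : m' < 2 ^ n) (h : S n m = S n m') : m = m' := by
  refine Nat.eq_of_testBit_eq fun i => ?_
  by_cases hi : i < n
  · have h1 : (⟨i, hi⟩ : Fin n) ∈ S n m ↔ (⟨i, hi⟩ : Fin n) ∈ S n m' := by rw [h]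
    rw [mem_S, mem_S] at h1
    exact Bool.eq_iff_iff.mpr h1
  · push Not at hi
    have h2 : 2 ^ n ≤ 2 ^ i := Nat.pow_le_pow_right (by norm_num) hi
    rw [Nat.testBit_lt_two_pow (lt_of_lt_of_le hm h2), Nat.testBit_lt_two_pow (lt_of_lt_of_le hm' h2)]

/-- all bases of the member have masks in the list -/
def GoodFor (n : ℕ) (T : Set (Fin n → ℝ)) (G : List ℕ) : Prop :=
  ∀ s < 2 ^ n, vec (S n s) ∈ T → s ∈ G

/-- some symmetric exchange between `m` and `m'` must produce a mask in `R` -/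
def forcedR (n : ℕ) (G : List ℕ) (m m' : ℕ) (R : List ℕ) : Bool :=
  (List.range n).any fun a => (m.testBit a && !m'.testBit a) && (List.range n).all fun b =>
    !(m'.testBit b && !m.testBit b) ||
      ((isRepl n m a b (m - 2 ^ a + 2 ^ b) && isRepl n m' b a (m' - 2 ^ b + 2 ^ a)) &&
        (decide (m - 2 ^ a + 2 ^ b < 2 ^ n) && decide (m' - 2 ^ b + 2 ^ a < 2 ^ n)) &&
        ((!G.contains (m - 2 ^ a + 2 ^ b) || !G.contains (m' - 2 ^ b + 2 ^ a)) ||
          (R.contains (m - 2 ^ a + 2 ^ b) || R.contains (m' - 2 ^ b + 2 ^ a))))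

theorem insert_eq_of_isRepl {m r a b : ℕ} (ha : a < n) (hb : b < n)
    (h : isRepl n m a b r = true) :
    S n r = insert (⟨b, hb⟩ : Fin n) (S n m \ {(⟨a, ha⟩ : Fin n)}) := by
  ext i
  rw [S_of_isRepl h i, mem_insert_iff, mem_sdiff, mem_singleton_iff, Fin.ext_iff, Fin.ext_iff]

theorem forced_spec {N : Matroid (Fin n)} {T : Set (Fin n → ℝ)} (hF : IsFace (polytope N) T)
    {G : List ℕ} (hG : GoodFor n T G) {m m' : ℕ} {R : List ℕ} (h : forcedR n G m m' R = true)
    (hm : vec (S n m) ∈ T) (hm' : vec (S n m') ∈ T) : ∃ r ∈ R, vec (S n r) ∈ T := by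
  unfold forcedR at h
  rw [List.any_eq_true] at h
  obtain ⟨a, ha, h⟩ := h
  rw [List.mem_range] at ha
  rw [Bool.and_eq_true, Bool.and_eq_true] at h
  obtain ⟨⟨ham, ham'⟩, h⟩ := h
  have hea : (⟨a, ha⟩ : Fin n) ∈ S n m := ham
  have hea' : (⟨a, ha⟩ : Fin n) ∉ S n m' := by
    rw [mem_S]
    simpa using ham'
  obtain ⟨f, hf', hf, h1, h2⟩ := face_exchange hF hm hm' hea hea'
  rw [List.all_eq_true] at h
  have h3 := h f (List.mem_range.mpr f.2)
  rw [mem_S] at hf hf'
  rw [Bool.not_eq_true] at hf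
  rw [hf, hf'] at h3
  simp only [Bool.not_false, Bool.and_true, Bool.not_true, Bool.false_or] at h3
  rw [Bool.and_eq_true, Bool.and_eq_true, Bool.and_eq_true, Bool.and_eq_true] at h3
  obtain ⟨⟨⟨hr1, hr2⟩, hl1, hl2⟩, h4⟩ := h3
  have he1 := insert_eq_of_isRepl ha f.2 hr1
  have he2 := insert_eq_of_isRepl f.2 ha hr2
  have hv1 : vec (S n (m - 2 ^ a + 2 ^ (f : ℕ))) ∈ T := by
    rw [he1]
    exact h1
  have hv2 : vec (S n (m' - 2 ^ (f : ℕ) + 2 ^ a)) ∈ T := by
    rw [he2]
    exact h2
  have hg1 := hG _ (of_decide_eq_true hl1) hv1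
  have hg2 := hG _ (of_decide_eq_true hl2) hv2
  rw [Bool.or_eq_true, Bool.or_eq_true, Bool.or_eq_true] at h4
  rcases h4 with (h4 | h4) | (h4 | h4)
  · simp [hg1] at h4
  · simp [hg2] at h4
  · exact ⟨_, by simpa using h4, hv1⟩
  · exact ⟨_, by simpa using h4, hv2⟩

/-- a face of a matroid polytope is spanned by the vectors with masks in the list -/
theorem eq_hull {N : Matroid (Fin n)} {T : Set (Fin n → ℝ)} (hF : IsFace (polytope N) T)
    {G : List ℕ} (hG : GoodFor n T G) :
    T = convexHull ℝ {x | ∃ m, m ∈ G ∧ vec (S n m) ∈ T ∧ x = vec (S n m)} := by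
  apply subset_antisymm
  · have h1 := face_eq_convexHull hF
    intro x hx
    rw [h1] at hx
    refine convexHull_mono ?_ hx
    rintro _ ⟨⟨B, hB, rfl⟩, hBT⟩
    obtain ⟨m, hm, rfl⟩ := exists_maskOf B
    exact ⟨m, hG m hm hBT, hBT, rfl⟩
  · refine convexHull_min ?_ hF.1
    rintro _ ⟨m, -, hm, rfl⟩
    exact hm

theorem exists_lt {N : Matroid (Fin n)} {T : Set (Fin n → ℝ)} (hF : IsFace (polytope N) T)
    {G : List ℕ} (hG : GoodFor n T G) {w : Fin n → ℝ} (hw : w ∈ T) {K c : ℕ}
    (h : gK n K w < c) : ∃ m ∈ G, vec (S n m) ∈ T ∧ cnt n K m < c := by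
  by_contra hcon
  push Not at hcon
  have h1 : T ⊆ {x | (c : ℝ) ≤ gK n K x} := by
    rw [eq_hull hF hG]
    refine convexHull_min ?_ (convex_halfSpace_ge (gK n K).isLinear _)
    rintro _ ⟨m, hm, hmT, rfl⟩
    show (c : ℝ) ≤ gK n K (vec (S n m))
    rw [gK_vec]
    exact_mod_cast hcon m hm hmT
  have h2 : (c : ℝ) ≤ gK n K w := h1 hw
  linarith

theorem exists_gt {N : Matroid (Fin n)} {T : Set (Fin n → ℝ)} (hF : IsFace (polytope N) T)
    {G : List ℕ} (hG : GoodFor n T G) {w : Fin n → ℝ} (hw : w ∈ T) {K c : ℕ}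
    (h : (c : ℝ) < gK n K w) : ∃ m ∈ G, vec (S n m) ∈ T ∧ c < cnt n K m := by
  by_contra hcon
  push Not at hcon
  have h1 : T ⊆ {x | gK n K x ≤ (c : ℝ)} := by
    rw [eq_hull hF hG]
    refine convexHull_min ?_ (convex_halfSpace_le (gK n K).isLinear _)
    rintro _ ⟨m, hm, hmT, rfl⟩
    show gK n K (vec (S n m)) ≤ (c : ℝ)
    rw [gK_vec]
    exact_mod_cast hcon m hm hmT
  have h2 : gK n K w ≤ (c : ℝ) := h1 hw
  linarith

/-- the average of the vectors of a list of masks -/
noncomputable def avg (n : ℕ) (l : List ℕ) : Fin n → ℝ :=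
  (1 / (l.length : ℝ)) • (l.map fun m => vec (S n m)).sum

theorem gK_avg (K : ℕ) (l : List ℕ) :
    gK n K (avg n l) = ((l.map (cnt n K)).sum : ℝ) / l.length := by
  unfold avg
  rw [map_smul, smul_eq_mul, map_list_sum, List.map_map]
  have : (List.map (⇑(gK n K) ∘ fun m => vec (S n m)) l).sum = ((l.map (cnt n K)).sum : ℝ) := by
    induction l with
    | nil => simp
    | cons a l ih =>
      simp only [List.map_cons, List.sum_cons, Function.comp_apply, gK_vec] at ih ⊢
      rw [ih]
      push_cast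
      rfl
  rw [this]
  ring

theorem avg_mem_PL {L l : List ℕ} (hne : l ≠ []) (h : ∀ m ∈ l, m ∈ L) : avg n l ∈ PL n L := by
  have key : ∀ l : List ℕ, l ≠ [] → (∀ m ∈ l, m ∈ L) → avg n l ∈ PL n L := by
    intro l
    induction l with
    | nil => intro h; exact absurd rfl h
    | cons a l ih =>
      intro _ h
      by_cases hl : l = []
      · subst hl
        unfold avg
        simpa using vec_mem_PL (h a (by simp))
      · have h1 := ih hl fun m hm => h m (List.mem_cons_of_mem _ hm)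
        have hpos : (0 : ℝ) < l.length := by
          exact_mod_cast List.length_pos_iff.mpr hl
        have h2 := convex_PL (n := n) L (vec_mem_PL (h a (by simp))) h1
          (a := 1 / ((l.length : ℝ) + 1)) (b := (l.length : ℝ) / ((l.length : ℝ) + 1))
          (by positivity) (by positivity) (by field_simp; ring)
        convert h2 using 1
        unfold avg
        rw [List.map_cons, List.sum_cons, List.length_cons, smul_add, smul_smul]
        push_cast
        congr 2
        field_simp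
  exact key l hne h

end Pool.Agent.R567.MSub
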