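import Mathlib

set_option autoImplicit false

/-!
# Matroid polytopes and matroid subdivisions

Definitions, and the basic facts used in the results on cells of matroid subdivisions.
-/

namespace Pool.Agent.R567.MSub

open Set Filter Topology

variable {n : ℕ}

/-- The 0/1-vector of a subset of `{0, ..., n - 1}`. -/
noncomputable def vec (B : Set (Fin n)) : Fin n → ℝ := B.indicator 1

/-- The matroid polytope: the convex hull of the 0/1-vectors of the bases. -/
noncomputable def polytope (M : Matroid (Fin n)) : Set (Fin n → ℝ) :=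
  convexHull ℝ {x | ∃ B, M.IsBase B ∧ x = vec B}

/-- `F` is a face of the convex set `P`: a convex subset such that every segment in `P` with an
inner point in `F` lies in `F`. The empty set and `P` itself are faces of `P`. -/
def IsFace (P F : Set (Fin n → ℝ)) : Prop := Convex ℝ F ∧ IsExtreme ℝ P F

/-- A polytopal complex: a finite family of polytopes which contains the faces of its members and
such that any two members meet in a common face (possibly empty). -/
structure IsPolytopalComplex (C : Set (Set (Fin n → ℝ))) : Prop where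
  finite : C.Finite
  polytope : ∀ Q ∈ C, ∃ S : Set (Fin n → ℝ), S.Finite ∧ Q = convexHull ℝ S
  face : ∀ Q ∈ C, ∀ F, IsFace Q F → F ∈ C
  inter : ∀ Q ∈ C, ∀ R ∈ C, IsFace Q (Q ∩ R) ∧ IsFace R (Q ∩ R)

/-- A cell is a maximal member of the complex. -/
def IsCell (C : Set (Set (Fin n → ℝ))) (Q : Set (Fin n → ℝ)) : Prop :=
  Q ∈ C ∧ ∀ R ∈ C, Q ⊆ R → R = Q

/-- `C` is a matroid subdivision of the matroid polytope `P_M`: a polytopal complex whose union is
`P_M`, all of whose vertices are vertices of `P_M`, and all of whose cells are matroid polytopes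
of matroids on the same ground set. -/
structure IsMatroidSubdivision (M : Matroid (Fin n)) (C : Set (Set (Fin n → ℝ))) : Prop where
  isComplex : IsPolytopalComplex C
  union : ⋃₀ C = polytope M
  vertices : ∀ v : Fin n → ℝ, {v} ∈ C → IsFace (polytope M) {v}
  cells : ∀ Q, IsCell C Q → ∃ N : Matroid (Fin n), N.E = univ ∧ Q = polytope N

/-- A matroid is connected if it is not a direct sum of two matroids on nonempty sets. -/
def Connected (M : Matroid (Fin n)) : Prop :=
  ∀ (M₁ M₂ : Matroid (Fin n)) (h : Disjoint M₁.E M₂.E), M₁.E.Nonempty → M₂.E.Nonempty →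
    M ≠ M₁.disjointSum M₂ h

/-! ### Basic facts -/

theorem vec_mem_polytope {M : Matroid (Fin n)} {B : Set (Fin n)} (hB : M.IsBase B) :
    vec B ∈ polytope M :=
  subset_convexHull ℝ _ ⟨B, hB, rfl⟩

theorem vec_nonneg (B : Set (Fin n)) (i : Fin n) : 0 ≤ vec B i := by
  unfold vec
  by_cases h : i ∈ B <;> simp [h]

theorem vec_le_one (B : Set (Fin n)) (i : Fin n) : vec B i ≤ 1 := by
  unfold vec
  by_cases h : i ∈ B <;> simp [h]

theorem vec_injective : Function.Injective (vec : Set (Fin n) → Fin n → ℝ) := by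
  intro A B h
  ext i
  have hi := congrFun h i
  unfold vec at hi
  by_cases hA : i ∈ A <;> by_cases hB : i ∈ B <;> simp_all

theorem convex_polytope (M : Matroid (Fin n)) : Convex ℝ (polytope M) := convex_convexHull ℝ _

theorem mem_cube {M : Matroid (Fin n)} {x : Fin n → ℝ} (hx : x ∈ polytope M) (i : Fin n) :
    0 ≤ x i ∧ x i ≤ 1 := by
  have h1 : Convex ℝ {x : Fin n → ℝ | 0 ≤ x i ∧ x i ≤ 1} := by
    intro x hx y hy a b ha hb hab
    simp only [Set.mem_ofPred_eq, Pi.add_apply, Pi.smul_apply, smul_eq_mul] at *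
    constructor
    · have := mul_nonneg ha hx.1
      have := mul_nonneg hb hy.1
      linarith
    · have := mul_le_mul_of_nonneg_left hx.2 ha
      have := mul_le_mul_of_nonneg_left hy.2 hb
      linarith
  have h2 : polytope M ⊆ {x : Fin n → ℝ | 0 ≤ x i ∧ x i ≤ 1} := by
    refine convexHull_min ?_ h1
    rintro _ ⟨B, -, rfl⟩
    exact ⟨vec_nonneg B i, vec_le_one B i⟩
  exact h2 hx

theorem vec_extreme {P : Set (Fin n → ℝ)} (hP : ∀ x ∈ P, ∀ i, 0 ≤ x i ∧ x i ≤ 1)
    {S : Set (Fin n)} (hS : vec S ∈ P) : vec S ∈ P.extremePoints ℝ := by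
  refine ⟨hS, fun x hx y hy hseg => ?_⟩
  obtain ⟨a, b, ha, hb, hab, h⟩ := hseg
  funext i
  have hi := congrFun h i
  have h1 := hP x hx i
  have h2 := hP y hy i
  simp only [Pi.add_apply, Pi.smul_apply, smul_eq_mul] at hi
  unfold vec at hi ⊢
  by_cases hiS : i ∈ S
  · simp only [hiS, indicator_of_mem, Pi.one_apply] at hi ⊢
    have : b * y i ≤ b := by nlinarith
    have : a * x i ≥ a := by linarith
    have : x i ≥ 1 := by
      by_contra hcon
      push Not at hcon
      nlinarith
    linarith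
  · simp only [hiS, not_false_eq_true, indicator_of_notMem] at hi ⊢
    have : 0 ≤ b * y i := by nlinarith
    have : a * x i ≤ 0 := by linarith
    have : x i ≤ 0 := by
      by_contra hcon
      push Not at hcon
      nlinarith
    linarith

/-- a 0/1-vector in a matroid polytope is the vector of a basis -/
theorem isBase_of_vec_mem {M : Matroid (Fin n)} {S : Set (Fin n)} (h : vec S ∈ polytope M) :
    M.IsBase S := by
  have h1 : vec S ∈ (polytope M).extremePoints ℝ :=
    vec_extreme (fun x hx i => mem_cube hx i) h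
  have h2 := extremePoints_convexHull_subset h1
  obtain ⟨B, hB, hSB⟩ := h2
  rw [vec_injective hSB]
  exact hB

/-- a linear inequality on the bases holds on the polytope -/
theorem le_of_mem {M : Matroid (Fin n)} (f : (Fin n → ℝ) →ₗ[ℝ] ℝ) (c : ℝ)
    (h : ∀ B, M.IsBase B → f (vec B) ≤ c) {x : Fin n → ℝ} (hx : x ∈ polytope M) : f x ≤ c := by
  have h1 : polytope M ⊆ {x | f x ≤ c} := by
    refine convexHull_min ?_ (convex_halfSpace_le f.isLinear c)
    rintro _ ⟨B, hB, rfl⟩
    exact h B hB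
  exact h1 hx

theorem polytope_mono {M N : Matroid (Fin n)} (h : ∀ B, M.IsBase B → N.IsBase B) :
    polytope M ⊆ polytope N := by
  refine convexHull_mono ?_
  rintro _ ⟨B, hB, rfl⟩
  exact ⟨B, h B hB, rfl⟩

theorem isBase_of_subset {M N : Matroid (Fin n)} (h : polytope N ⊆ polytope M) {B : Set (Fin n)}
    (hB : N.IsBase B) : M.IsBase B :=
  isBase_of_vec_mem (h (vec_mem_polytope hB))

/-- if the sum of two points of a face is the sum of two points of the polytope, then these are
in the face -/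
theorem mid {P F : Set (Fin n → ℝ)} (hF : IsFace P F) {u v x y : Fin n → ℝ}
    (hu : u ∈ F) (hv : v ∈ F) (hx : x ∈ P) (hy : y ∈ P) (h : x + y = u + v) : x ∈ F := by
  have hm : (1 / 2 : ℝ) • u + (1 / 2 : ℝ) • v ∈ F :=
    hF.1 hu hv (by norm_num) (by norm_num) (by norm_num)
  refine hF.2.left_mem_of_mem_openSegment hx hy hm
    ⟨1 / 2, 1 / 2, by norm_num, by norm_num, by norm_num, ?_⟩
  rw [← smul_add, ← smul_add, h]

theorem IsPolytopalComplex.isClosed {C : Set (Set (Fin n → ℝ))} (hC : IsPolytopalComplex C)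
    {Q : Set (Fin n → ℝ)} (hQ : Q ∈ C) : IsClosed Q := by
  obtain ⟨S, hS, rfl⟩ := hC.polytope Q hQ
  exact hS.isClosed_convexHull ℝ

theorem exists_cell_of_mem {C : Set (Set (Fin n → ℝ))} (hC : IsPolytopalComplex C)
    {Q : Set (Fin n → ℝ)} (hQ : Q ∈ C) : ∃ R, IsCell C R ∧ Q ⊆ R := by
  obtain ⟨R, hQR, hR⟩ := hC.finite.exists_le_maximal hQ
  exact ⟨R, ⟨hR.prop, fun S hS hRS => subset_antisymm (hR.le_of_ge hS hRS) hRS⟩, hQR⟩

/-- some cell contains `p` and a point of the half-open segment from `p` to `v` -/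
theorem exists_cell_near {C : Set (Set (Fin n → ℝ))} (hC : IsPolytopalComplex C)
    {P : Set (Fin n → ℝ)} (hP : ⋃₀ C = P) (hconv : Convex ℝ P) {p v : Fin n → ℝ}
    (hp : p ∈ P) (hv : v ∈ P) :
    ∃ Q, IsCell C Q ∧ p ∈ Q ∧ ∃ t : ℝ, 0 < t ∧ t ≤ 1 ∧ p + t • (v - p) ∈ Q := by
  set q : ℕ → (Fin n → ℝ) := fun k => p + (1 / ((k : ℝ) + 1)) • (v - p) with hq
  have hqP : ∀ k, q k ∈ P := by
    intro k
    have h1 : (0 : ℝ) ≤ 1 / ((k : ℝ) + 1) := by positivity
    have h2 : 1 / ((k : ℝ) + 1) ≤ 1 := by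
      rw [div_le_one (by positivity)]
      have : (0 : ℝ) ≤ k := Nat.cast_nonneg k
      linarith
    have := hconv hp hv (sub_nonneg.mpr h2) h1 (by ring)
    convert this using 1
    funext i
    simp only [hq, Pi.add_apply, Pi.smul_apply, Pi.sub_apply, smul_eq_mul]
    ring
  have hlim : Tendsto q atTop (𝓝 p) := by
    have h1 : Tendsto (fun k : ℕ => (1 / ((k : ℝ) + 1))) atTop (𝓝 0) :=
      tendsto_one_div_add_atTop_nhds_zero_nat
    have h2 : Tendsto (fun k : ℕ => p + (1 / ((k : ℝ) + 1)) • (v - p)) atTop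
        (𝓝 (p + (0 : ℝ) • (v - p))) := tendsto_const_nhds.add (h1.smul_const _)
    simpa [hq] using h2
  have hfreq : ∃ Q ∈ C, ∃ᶠ k in atTop, q k ∈ Q := by
    by_contra hcon
    push Not at hcon
    have h1 : ∀ Q ∈ C, ∀ᶠ k in atTop, q k ∉ Q := by
      intro Q hQ
      exact hcon Q hQ
    have h2 : ∀ᶠ k in atTop, ∀ Q ∈ C, q k ∉ Q := (Filter.eventually_all_finite hC.finite).mpr h1
    obtain ⟨k, hk⟩ := h2.exists
    have h3 : q k ∈ ⋃₀ C := by
      rw [hP]
      exact hqP k
    obtain ⟨Q, hQ, hkQ⟩ := h3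
    exact hk Q hQ hkQ
  obtain ⟨Q, hQ, hfr⟩ := hfreq
  have hpQ : p ∈ Q := (hC.isClosed hQ).mem_of_frequently_of_tendsto hfr hlim
  obtain ⟨k, hk⟩ := hfr.exists
  obtain ⟨R, hR, hQR⟩ := exists_cell_of_mem hC hQ
  refine ⟨R, hR, hQR hpQ, 1 / ((k : ℝ) + 1), by positivity, ?_, hQR hk⟩
  rw [div_le_one (by positivity)]
  have : (0 : ℝ) ≤ k := Nat.cast_nonneg k
  linarith

end Pool.Agent.R567.MSub
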