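import Pool.Agent.R567.MSub.Sigma0

set_option autoImplicit false

/-!
# Carriers of four points in a refinement of the subdivision of the nine lines
-/

namespace Pool.Agent.R567.MSub

open Set

/-! ### general facts -/

theorem tight {n : ℕ} {C : Set (Set (Fin n → ℝ))} (hC : IsPolytopalComplex C) {q : Fin n → ℝ}
    {T : Set (Fin n → ℝ)} (hT : IsCarrier C q T) (g : (Fin n → ℝ) →ₗ[ℝ] ℝ) (c : ℝ)
    (h : ∀ z ∈ T, g z ≤ c) (hq : g q = c) : ∀ z ∈ T, g z = c := by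
  have hf := isFace_of_le (hC.convex hT.1) g c h
  intro z hz
  exact (hT.2.2 _ (hC.face T hT.1 _ hf) ⟨hT.2.1, hq⟩ hz).2

theorem tight' {n : ℕ} {C : Set (Set (Fin n → ℝ))} (hC : IsPolytopalComplex C) {q : Fin n → ℝ}
    {T : Set (Fin n → ℝ)} (hT : IsCarrier C q T) (g : (Fin n → ℝ) →ₗ[ℝ] ℝ) (c : ℝ)
    (h : ∀ z ∈ T, c ≤ g z) (hq : g q = c) : ∀ z ∈ T, g z = c := by
  have hf := isFace_of_ge (hC.convex hT.1) g c h
  intro z hz
  exact (hT.2.2 _ (hC.face T hT.1 _ hf) ⟨hT.2.1, hq⟩ hz).2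

/-- two pairs of points with the same midpoint in two members of the complex -/
theorem transfer {n : ℕ} {C : Set (Set (Fin n → ℝ))} (hC : IsPolytopalComplex C)
    {Q R : Set (Fin n → ℝ)} (hQ : Q ∈ C) (hR : R ∈ C) {u v x y : Fin n → ℝ} (hu : u ∈ Q)
    (hv : v ∈ Q) (hx : x ∈ R) (hy : y ∈ R) (h : x + y = u + v) : x ∈ Q ∧ y ∈ Q := by
  have hf := (hC.inter R hR Q hQ).1
  have hm : (1 / 2 : ℝ) • x + (1 / 2 : ℝ) • y ∈ R :=
    (hC.convex hR) hx hy (by norm_num) (by norm_num) (by norm_num)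
  have hm' : (1 / 2 : ℝ) • x + (1 / 2 : ℝ) • y ∈ Q := by
    rw [← smul_add, h, smul_add]
    exact (hC.convex hQ) hu hv (by norm_num) (by norm_num) (by norm_num)
  refine ⟨(hf.2.left_mem_of_mem_openSegment hx hy ⟨hm, hm'⟩
    ⟨1 / 2, 1 / 2, by norm_num, by norm_num, by norm_num, rfl⟩).2,
    (hf.2.left_mem_of_mem_openSegment hy hx ⟨hm, hm'⟩
    ⟨1 / 2, 1 / 2, by norm_num, by norm_num, by norm_num, ?_⟩).2⟩
  rw [add_comm]

/-- the data of a carrier -/
structure Dat (C : Set (Set (Fin 9 → ℝ))) (l G : List ℕ) (T : Set (Fin 9 → ℝ)) : Prop where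
  car : IsCarrier C (avg 9 l) T
  good : GoodFor 9 T G
  face : ∃ N : Matroid (Fin 9), IsFace (polytope N) T

def swB (G : List ℕ) (u v : ℕ) : Bool :=
  G.all fun m => !m.testBit u || G.all fun m' => !m'.testBit v ||
    ((m - 2 ^ u + 2 ^ v == m' || forcedR 9 G m m' [m - 2 ^ u + 2 ^ v]) ||
      forcedR 9 G m' m [m - 2 ^ u + 2 ^ v])

def swsB (G l : List ℕ) (sws : List (ℕ × ℕ)) : Bool :=
  sws.all fun s => swB G s.1 s.2 && decide (0 < (l.map (cnt 9 (2 ^ s.2))).sum)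

def nrm (sws : List (ℕ × ℕ)) (m : ℕ) : ℕ :=
  sws.foldl (fun m s => if m.testBit s.1 then m - 2 ^ s.1 + 2 ^ s.2 else m) m

theorem testBit_of_cnt {n v m : ℕ} (h : 0 < cnt n (2 ^ v) m) : m.testBit v = true := by
  unfold cnt at h
  rw [List.countP_pos_iff] at h
  obtain ⟨i, -, hi⟩ := h
  rw [Bool.and_eq_true, Nat.testBit_two_pow, decide_eq_true_iff] at hi
  rw [hi.1]
  exact hi.2

theorem cover_mem {C : Set (Set (Fin 9 → ℝ))} {l G : List ℕ} {T : Set (Fin 9 → ℝ)}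
    (h : Dat C l G T) (hl : l ≠ []) {v : ℕ} (hv : 0 < (l.map (cnt 9 (2 ^ v))).sum) :
    ∃ m ∈ G, vec (S 9 m) ∈ T ∧ m.testBit v = true := by
  obtain ⟨N, hN⟩ := h.face
  have h1 : ((0 : ℕ) : ℝ) < gK 9 (2 ^ v) (avg 9 l) := by
    rw [gK_avg]
    have h2 : (0 : ℝ) < ((l.map (cnt 9 (2 ^ v))).sum : ℝ) := by exact_mod_cast hv
    have h3 : (0 : ℝ) < l.length := by exact_mod_cast List.length_pos_iff.mpr hl
    simp only [Nat.cast_zero]
    positivity
  obtain ⟨m, hm, hmT, hc⟩ := exists_gt hN h.good h.car.2.1 h1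
  exact ⟨m, hm, hmT, testBit_of_cnt hc⟩

theorem swap_mem {C : Set (Set (Fin 9 → ℝ))} {l G : List ℕ} {T : Set (Fin 9 → ℝ)}
    (h : Dat C l G T) (hl : l ≠ []) {u v : ℕ} (hsw : swB G u v = true)
    (hv : 0 < (l.map (cnt 9 (2 ^ v))).sum) {m : ℕ} (hm : m ∈ G) (hmT : vec (S 9 m) ∈ T)
    (hu : m.testBit u = true) : vec (S 9 (m - 2 ^ u + 2 ^ v)) ∈ T := by
  obtain ⟨N, hN⟩ := h.face
  obtain ⟨m', hm', hm'T, hv'⟩ := cover_mem h hl hv
  unfold swB at hsw
  rw [List.all_eq_true] at hsw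
  have h1 := hsw m hm
  rw [hu, Bool.not_true, Bool.false_or, List.all_eq_true] at h1
  have h2 := h1 m' hm'
  rw [hv', Bool.not_true, Bool.false_or, Bool.or_eq_true, Bool.or_eq_true] at h2
  rcases h2 with (h2 | h2) | h2
  · rw [beq_iff_eq] at h2
    rw [h2]
    exact hm'T
  · obtain ⟨r, hr, hrT⟩ := forced_spec hN h.good h2 hmT hm'T
    rw [List.mem_singleton] at hr
    rw [← hr]
    exact hrT
  · obtain ⟨r, hr, hrT⟩ := forced_spec hN h.good h2 hm'T hmT
    rw [List.mem_singleton] at hr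
    rw [← hr]
    exact hrT

theorem nrm_mem {C : Set (Set (Fin 9 → ℝ))} {l G : List ℕ} {T : Set (Fin 9 → ℝ)}
    (h : Dat C l G T) (hl : l ≠ []) (sws : List (ℕ × ℕ))
    (hs : ∀ s ∈ sws, ∀ m ∈ G, m.testBit s.1 = true → m - 2 ^ s.1 + 2 ^ s.2 < 512)
    (hsw : swsB G l sws = true) {m : ℕ} (hm : m ∈ G) (hmT : vec (S 9 m) ∈ T) :
    vec (S 9 (nrm sws m)) ∈ T := by
  induction sws generalizing m with
  | nil => exact hmT
  | cons s sws ih =>
    unfold swsB at hsw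
    rw [List.all_cons, Bool.and_eq_true, Bool.and_eq_true, decide_eq_true_iff] at hsw
    obtain ⟨⟨h1, h2⟩, h3⟩ := hsw
    unfold nrm
    rw [List.foldl_cons]
    by_cases hu : m.testBit s.1 = true
    · rw [if_pos hu]
      have h4 := swap_mem h hl h1 h2 hm hmT hu
      have h5 : m - 2 ^ s.1 + 2 ^ s.2 < 512 := hs s (by simp) m hm hu
      exact ih (fun s' hs' => hs s' (List.mem_cons_of_mem _ hs')) h3 (h.good _ h5 h4) h4
    · rw [if_neg hu]
      exact ih (fun s' hs' => hs s' (List.mem_cons_of_mem _ hs')) h3 hm hmT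

/-- the union of the classes which meet `e` -/
def kap (ks : List ℕ) (e : ℕ) : ℕ := (ks.map fun k => if 0 < cnt 9 k e then k else 0).sum

def presB (l G : List ℕ) (sws : List (ℕ × ℕ)) (ks : List ℕ) (pairs : List (ℕ × ℕ)) : Bool :=
  decide (0 < (l.map (cnt 9 (2 ^ 0))).sum) &&
    ((G.all fun m => !m.testBit 0 || pairs.any fun e => nrm sws m == e.1) &&
      (pairs.all fun e => cnt 9 (kap ks e.1) e.1 == 2 &&
        ((l.map (cnt 9 (kap ks e.1))).sum == l.length &&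
          G.all fun m => !(cnt 9 (kap ks e.1) m == 0) || nrm sws m == e.2)))

theorem present {C : Set (Set (Fin 9 → ℝ))} (hC : IsPolytopalComplex C) {l G : List ℕ}
    {T : Set (Fin 9 → ℝ)} (h : Dat C l G T) (hl : l ≠ []) {sws : List (ℕ × ℕ)}
    (hs : ∀ s ∈ sws, ∀ m ∈ G, m.testBit s.1 = true → m - 2 ^ s.1 + 2 ^ s.2 < 512)
    (hsw : swsB G l sws = true) {ks : List ℕ} {pairs : List (ℕ × ℕ)}
    (hp : presB l G sws ks pairs = true) :
    ∃ e ∈ pairs, vec (S 9 e.1) ∈ T ∧ vec (S 9 e.2) ∈ T := by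
  unfold presB at hp
  rw [Bool.and_eq_true, Bool.and_eq_true, decide_eq_true_iff, List.all_eq_true,
    List.all_eq_true] at hp
  obtain ⟨h1, h2, h3⟩ := hp
  obtain ⟨m, hm, hmT, hm0⟩ := cover_mem h hl h1
  have h4 := h2 m hm
  rw [hm0, Bool.not_true, Bool.false_or, List.any_eq_true] at h4
  obtain ⟨e, he, hne⟩ := h4
  rw [beq_iff_eq] at hne
  have h5 : vec (S 9 e.1) ∈ T := by
    rw [← hne]
    exact nrm_mem h hl sws hs hsw hm hmT
  refine ⟨e, he, h5, ?_⟩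
  have h6 := h3 e he
  rw [Bool.and_eq_true, Bool.and_eq_true, List.all_eq_true, beq_iff_eq, beq_iff_eq] at h6
  obtain ⟨h7, h8, h9⟩ := h6
  obtain ⟨ε, hε, hw⟩ := h.car.relint hC h5
  have hlen : (l.length : ℝ) ≠ 0 := by
    have : (0 : ℝ) < l.length := by exact_mod_cast List.length_pos_iff.mpr hl
    exact this.ne'
  have hq1 : gK 9 (kap ks e.1) (avg 9 l) = 1 := by
    rw [gK_avg, h8]
    field_simp
  have h10 : gK 9 (kap ks e.1) (avg 9 l + ε • (avg 9 l - vec (S 9 e.1))) < ((1 : ℕ) : ℝ) := by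
    rw [map_add, map_smul, map_sub, hq1, gK_vec, h7, smul_eq_mul]
    push_cast
    linarith
  obtain ⟨N, hN⟩ := h.face
  obtain ⟨m', hm', hm'T, hc⟩ := exists_lt hN h.good hw h10
  have h11 := h9 m' hm'
  have h12 : cnt 9 (kap ks e.1) m' = 0 := by omega
  rw [h12] at h11
  simp only [BEq.rfl, Bool.not_true, Bool.false_or, beq_iff_eq] at h11
  rw [← h11]
  exact nrm_mem h hl sws hs hsw hm' hm'T

def relB (pairs : List (ℕ × ℕ)) : Bool :=
  pairs.all fun e => pairs.all fun f => (List.range 9).all fun i =>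
    (f.1.testBit i).toNat + (f.2.testBit i).toNat == (e.1.testBit i).toNat + (e.2.testBit i).toNat

theorem transfer_pairs {C : Set (Set (Fin 9 → ℝ))} (hC : IsPolytopalComplex C)
    {Q R : Set (Fin 9 → ℝ)} (hQ : Q ∈ C) (hR : R ∈ C) {pairs : List (ℕ × ℕ)}
    (hrel : relB pairs = true) (hpres : ∃ e ∈ pairs, vec (S 9 e.1) ∈ Q ∧ vec (S 9 e.2) ∈ Q)
    {f : ℕ × ℕ} (hf : f ∈ pairs) (hfR : vec (S 9 f.1) ∈ R ∧ vec (S 9 f.2) ∈ R) :
    vec (S 9 f.1) ∈ Q ∧ vec (S 9 f.2) ∈ Q := by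
  obtain ⟨e, he, he1, he2⟩ := hpres
  refine transfer hC hQ hR he1 he2 hfR.1 hfR.2 ?_
  refine vec_rel _ _ _ _ fun i => ?_
  unfold relB at hrel
  rw [List.all_eq_true] at hrel
  have h1 := hrel e he
  rw [List.all_eq_true] at h1
  have h2 := h1 f hf
  rw [List.all_eq_true] at h2
  have h3 := h2 i (List.mem_range.mpr i.2)
  rw [beq_iff_eq] at h3
  exact h3

/-! ### the lists -/

/-- masks of triples with two elements in `K` -/
def GI (K : ℕ) : List ℕ := Tr.filter fun m => cnt 9 K m == 2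

/-- masks of triples containing `x` and not equal to one of the lines -/
def GII (x : ℕ) (Ks : List ℕ) : List ℕ :=
  Tr.filter fun m => cnt 9 (2 ^ x) m == 1 && Ks.all fun K => decide (cnt 9 K m ≤ 2)

def lA : List ℕ := [19, 28, 35, 44, 67, 76, 131, 140, 259, 268]
def lB : List ℕ := [19, 98, 21, 100, 25, 104, 145, 224, 273, 352]
def l7 : List ℕ := [131, 140, 176, 448]
def l8 : List ℕ := [259, 268, 304, 448]

theorem mem_U {C : Set (Set (Fin 9 → ℝ))} (hC : IsMatroidSubdivision U9 C)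
    {T : Set (Fin 9 → ℝ)} (hT : T ∈ C) {s : ℕ} (hs : s < 2 ^ 9) (hv : vec (S 9 s) ∈ T) :
    s ∈ Tr := by
  have h1 : vec (S 9 s) ∈ polytope U9 := by
    rw [← hC.union]
    exact ⟨T, hT, hv⟩
  obtain ⟨m, hm, hSm⟩ := U9_isBase.mp (isBase_of_vec_mem h1)
  have h2 := S_inj (n := 9) hs (Tr_lt m hm) hSm
  rw [h2]
  exact hm

theorem avg_mem_union {C : Set (Set (Fin 9 → ℝ))} (hC : IsMatroidSubdivision U9 C) {l : List ℕ}
    (hl : l ≠ []) (h : ∀ m ∈ l, m ∈ Tr) : ∃ T, IsCarrier C (avg 9 l) T := by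
  have h1 : avg 9 l ∈ polytope U9 := by
    rw [polytope_eq_PL fun _ => U9_isBase]
    exact avg_mem_PL hl h
  rw [← hC.union] at h1
  obtain ⟨Q, hQ, hq⟩ := h1
  exact exists_carrier hC.isComplex hQ hq

theorem exists_dat_I {C : Set (Set (Fin 9 → ℝ))} (hC : IsMatroidSubdivision U9 C)
    (href : Refines C Sig0) {l : List ℕ} (hl : l ≠ []) (h : ∀ m ∈ l, m ∈ Tr) {K : ℕ}
    (hK : K ∈ K9) (hsum : (l.map (cnt 9 K)).sum = 2 * l.length) :
    ∃ T, Dat C l (GI K) T := by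
  obtain ⟨T, hT⟩ := avg_mem_union hC hl h
  refine ⟨T, hT, ?_, ?_⟩
  · intro s hs hv
    unfold GI
    rw [List.mem_filter, beq_iff_eq]
    refine ⟨mem_U hC hT.1 hs hv, ?_⟩
    have hlen : (l.length : ℝ) ≠ 0 := by
      have : (0 : ℝ) < l.length := by exact_mod_cast List.length_pos_iff.mpr hl
      exact this.ne'
    have hq : gK 9 K (avg 9 l) = 2 := by
      rw [gK_avg, hsum]
      push_cast
      field_simp
    have h2 : gK 9 K (vec (S 9 s)) = 2 := by
      rcases sided href hT.1 hK with h3 | h3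
      · exact tight hC.isComplex hT _ _ h3 hq _ hv
      · exact tight' hC.isComplex hT _ _ h3 hq _ hv
    rw [gK_vec] at h2
    exact_mod_cast h2
  · obtain ⟨N, -, -, hN⟩ := member hC hT.1
    exact ⟨N, hN⟩

theorem exists_dat_II {C : Set (Set (Fin 9 → ℝ))} (hC : IsMatroidSubdivision U9 C)
    (href : Refines C Sig0) {l : List ℕ} (hl : l ≠ []) (h : ∀ m ∈ l, m ∈ Tr) {x : ℕ}
    {Ks : List ℕ} (hK : ∀ K ∈ Ks, K ∈ K9) (hsum : (l.map (cnt 9 (2 ^ x))).sum = l.length)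
    (hx : ∀ m ∈ Tr, cnt 9 (2 ^ x) m ≤ 1)
    (hsum' : ∀ K ∈ Ks, (l.map (cnt 9 K)).sum < 2 * l.length) :
    ∃ T, Dat C l (GII x Ks) T := by
  obtain ⟨T, hT⟩ := avg_mem_union hC hl h
  have hlen : (0 : ℝ) < l.length := by exact_mod_cast List.length_pos_iff.mpr hl
  refine ⟨T, hT, ?_, ?_⟩
  · intro s hs hv
    unfold GII
    rw [List.mem_filter, Bool.and_eq_true, beq_iff_eq, List.all_eq_true]
    refine ⟨mem_U hC hT.1 hs hv, ?_, ?_⟩
    · have hq : gK 9 (2 ^ x) (avg 9 l) = 1 := by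
        rw [gK_avg, hsum]
        field_simp
      have hle : ∀ z ∈ T, gK 9 (2 ^ x) z ≤ 1 := by
        intro z hz
        have h1 : z ∈ polytope U9 := by
          rw [← hC.union]
          exact ⟨T, hT.1, hz⟩
        rw [polytope_eq_PL fun _ => U9_isBase] at h1
        refine PL_le _ _ (fun m hm => ?_) h1
        rw [gK_vec]
        exact_mod_cast hx m hm
      have h2 := tight hC.isComplex hT _ _ hle hq _ hv
      rw [gK_vec] at h2
      exact_mod_cast h2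
    · intro K hKs
      rw [decide_eq_true_iff]
      have hq : gK 9 K (avg 9 l) < 2 := by
        rw [gK_avg, div_lt_iff₀ hlen]
        exact_mod_cast hsum' K hKs
      rcases sided href hT.1 (hK K hKs) with h3 | h3
      · have h4 := h3 _ hv
        rw [gK_vec] at h4
        exact_mod_cast h4
      · have h4 := h3 _ hT.2.1
        linarith
  · obtain ⟨N, -, -, hN⟩ := member hC hT.1
    exact ⟨N, hN⟩

end Pool.Agent.R567.MSub
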