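import Pool.Agent.R567.MSub.Mask

set_option autoImplicit false

/-!
# A connected matroid and a connected submatroid which is no cell of a matroid subdivision

`M` is the cycle matroid of `K_4` (elements `0, ..., 5`, with triangles `012`, `034`, `135`, `245`)
together with two free elements `6`, `7` of rank three; in `M'` the elements `0, ..., 5` are on a
line, `0` and `1` are parallel, and there are no other dependencies.
-/

namespace Pool.Agent.R567.MSub

open Set

/-- masks of the bases of `M` -/
def LM : List ℕ := [11, 13, 14, 19, 21, 22, 26, 28, 35, 37, 38, 41, 44, 49, 50, 56, 67, 69, 70, 73,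
  74, 76, 81, 82, 84, 88, 97, 98, 100, 104, 112, 131, 133, 134, 137, 138, 140, 145, 146, 148, 152,
  161, 162, 164, 168, 176, 193, 194, 196, 200, 208, 224]

/-- masks of the bases of `M'` -/
def LP : List ℕ := [69, 70, 73, 74, 76, 81, 82, 84, 88, 97, 98, 100, 104, 112, 133, 134, 137, 138,
  140, 145, 146, 148, 152, 161, 162, 164, 168, 176, 193, 194, 196, 200, 208, 224]

theorem exM : exchB 8 (fun m => LM.contains m) LM = true := by decide +kernel

theorem exP : exchB 8 (fun m => LP.contains m) LP = true := by decide +kernel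

theorem coM : connB 8 (fun m => LM.contains m) LM = true := by decide +kernel

theorem coP : connB 8 (fun m => LP.contains m) LP = true := by decide +kernel

/-- the matroid `M` -/
def MM : Matroid (Fin 8) := matOf 8 (fun m => LM.contains m) LM (by decide) exM
  (fun m h => by simpa using h)

/-- the matroid `M'` -/
def MP : Matroid (Fin 8) := matOf 8 (fun m => LP.contains m) LP (by decide) exP
  (fun m h => by simpa using h)

theorem MM_isBase {B : Set (Fin 8)} : MM.IsBase B ↔ ∃ m ∈ LM, B = S 8 m := Iff.rfl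

theorem MP_isBase {B : Set (Fin 8)} : MP.IsBase B ↔ ∃ m ∈ LP, B = S 8 m := Iff.rfl

theorem MP_le {B : Set (Fin 8)} (h : MP.IsBase B) : MM.IsBase B := by
  obtain ⟨m, hm, rfl⟩ := h
  have : ∀ m ∈ LP, m ∈ LM := by decide
  exact ⟨m, this m hm, rfl⟩

theorem S_inj8 : ∀ m ∈ LM, ∀ k ∈ LM, S 8 m = S 8 k → m = k := by
  have h : ∀ m ∈ LM, ∀ k ∈ LM, (∀ i : Fin 8, m.testBit i = k.testBit i) → m = k := by
    decide +kernel
  intro m hm k hk hS
  refine h m hm k hk fun i => ?_
  have : i ∈ S 8 m ↔ i ∈ S 8 k := by rw [hS]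
  rw [mem_S, mem_S] at this
  exact Bool.eq_iff_iff.mpr this

/-- a linear functional: the sum of the coordinates `0, ..., 5` -/
noncomputable def fA : (Fin 8 → ℝ) →ₗ[ℝ] ℝ :=
  ∑ i ∈ Finset.univ.filter (fun i : Fin 8 => i.1 < 6), LinearMap.proj i

theorem fA_apply (x : Fin 8 → ℝ) : fA x = x 0 + x 1 + x 2 + x 3 + x 4 + x 5 := by
  have : (Finset.univ.filter (fun i : Fin 8 => i.1 < 6)) = {0, 1, 2, 3, 4, 5} := by decide
  unfold fA
  rw [this]
  simp
  ring

theorem fA_S (m : ℕ) : fA (vec (S 8 m)) = (((m.testBit 0).toNat + (m.testBit 1).toNat +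
    (m.testBit 2).toNat + (m.testBit 3).toNat + (m.testBit 4).toNat + (m.testBit 5).toNat : ℕ) : ℝ)
    := by
  rw [fA_apply, vec_S, vec_S, vec_S, vec_S, vec_S, vec_S]
  push_cast
  rfl

theorem combinatorial (N : Matroid (Fin 8)) (hE : N.E = univ)
    (hM : ∀ B, N.IsBase B → MM.IsBase B)
    (hF : ∀ m ∈ [69, 70, 73, 74, 76, 81, 82, 84, 88, 97, 98, 100, 104, 112], N.IsBase (S 8 m))
    (hn : ¬ N.IsBase (S 8 67)) (hA : ∃ m ∈ LM, m < 64 ∧ N.IsBase (S 8 m)) : False := by
  have hmem : ∀ (X : Set (Fin 8)), X ⊆ N.E := fun X => hE ▸ subset_univ X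
  -- three-element sets which are not bases of `M` are dependent
  have key : ∀ a b c : Fin 8, (∀ m ∈ LM, m.testBit a = true → m.testBit b = true →
      m.testBit c = true → m = 67) → ¬ N.Indep {a, b, c} := by
    intro a b c h hi
    obtain ⟨B, hB, hsub⟩ := hi.exists_isBase_superset
    obtain ⟨m, hm, rfl⟩ := hM B hB
    have h1 : a ∈ S 8 m := hsub (by simp)
    have h2 : b ∈ S 8 m := hsub (by simp)
    have h3 : c ∈ S 8 m := hsub (by simp)
    have := h m hm h1 h2 h3
    subst this
    exact hn hB
  have k012 : ¬ N.Indep {0, 1, 2} := key 0 1 2 (by decide)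
  have k034 : ¬ N.Indep {0, 3, 4} := key 0 3 4 (by decide)
  have k135 : ¬ N.Indep {1, 3, 5} := key 1 3 5 (by decide)
  have k245 : ¬ N.Indep {2, 4, 5} := key 2 4 5 (by decide)
  have k601 : ¬ N.Indep {6, 0, 1} := key 6 0 1 (by decide)
  have ind : ∀ (m : ℕ) (X : Set (Fin 8)), m ∈ [69, 70, 73, 74, 76, 81, 82, 84, 88, 97, 98, 100,
      104, 112] → X ⊆ S 8 m → N.Indep X := fun m X hm hX => (hF m hm).indep.subset hX
  have sub2 : ∀ (m : ℕ) (a b : Fin 8), m.testBit a = true → m.testBit b = true →
      ({a, b} : Set (Fin 8)) ⊆ S 8 m := by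
    intro m a b ha hb
    rintro x (rfl | rfl)
    · exact ha
    · exact hb
  -- an element outside an independent set which makes it dependent is in the closure
  have cl : ∀ (a b c : Fin 8), N.Indep {b, c} → ¬ N.Indep {a, b, c} →
      a ∈ N.closure {b, c} := by
    intro a b c hi hd
    rw [hi.mem_closure_iff]
    left
    exact ⟨hd, hmem _⟩
  have hrank2 : ∀ (a b : Fin 8) (X : Set (Fin 8)), N.Indep X → X ⊆ N.closure {a, b} →
      X.encard ≤ 2 := by
    intro a b X hX hsub
    calc X.encard ≤ N.eRk (N.closure {a, b}) := hX.encard_le_eRk_of_subset hsub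
      _ = N.eRk {a, b} := N.eRk_closure_eq _
      _ ≤ ({a, b} : Set (Fin 8)).encard := N.eRk_le_encard _
      _ ≤ ({b} : Set (Fin 8)).encard + 1 := Set.encard_insert_le _ _
      _ = 2 := by
        rw [Set.encard_singleton]
        norm_num
  by_cases h01 : N.Indep {0, 1}
  · have h2 : (2 : Fin 8) ∈ N.closure {0, 1} := by
      refine cl 2 0 1 h01 ?_
      have : ({2, 0, 1} : Set (Fin 8)) = {0, 1, 2} := by
        ext x; simp only [mem_insert_iff, mem_singleton_iff]; tauto
      rw [this]
      exact k012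
    have h6 : (6 : Fin 8) ∈ N.closure {0, 1} := cl 6 0 1 h01 k601
    have h0 : (0 : Fin 8) ∈ N.closure {0, 1} := N.mem_closure_of_mem (by simp) (hmem _)
    have hX : N.Indep {6, 0, 2} := by
      refine ind 69 _ (by simp) ?_
      rintro x (rfl | rfl | rfl) <;> decide
    have := hrank2 0 1 _ hX (by
      rintro x (rfl | rfl | rfl)
      · exact h6
      · exact h0
      · exact h2)
    have h3 : ({6, 0, 2} : Set (Fin 8)).encard = 3 := by
      rw [Set.encard_eq_three]
      exact ⟨6, 0, 2, by decide, by decide, by decide, rfl⟩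
    rw [h3] at this
    exact absurd this (by decide)
  · have i0 : N.Indep {0} := ind 69 _ (by simp) (by
      rintro x rfl
      decide)
    have h1 : (1 : Fin 8) ∈ N.closure {0} := by
      rw [i0.mem_closure_iff]
      left
      refine ⟨fun hi => h01 ?_, hmem _⟩
      have : ({0, 1} : Set (Fin 8)) = insert 1 {0} := by
        ext x; simp only [mem_insert_iff, mem_singleton_iff]; tauto
      rw [this]
      exact hi
    have h0' : (0 : Fin 8) ∈ N.closure {0, 3} := N.mem_closure_of_mem (by simp) (hmem _)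
    have h3' : (3 : Fin 8) ∈ N.closure {0, 3} := N.mem_closure_of_mem (by simp) (hmem _)
    have h1' : (1 : Fin 8) ∈ N.closure {0, 3} :=
      N.closure_subset_closure (by simp) h1
    have i03 : N.Indep {0, 3} := ind 73 _ (by simp) (sub2 73 0 3 (by decide) (by decide))
    have i13 : N.Indep {1, 3} := ind 74 _ (by simp) (sub2 74 1 3 (by decide) (by decide))
    have i45 : N.Indep {4, 5} := ind 112 _ (by simp) (sub2 112 4 5 (by decide) (by decide))
    have h4' : (4 : Fin 8) ∈ N.closure {0, 3} := by
      refine cl 4 0 3 i03 ?_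
      have : ({4, 0, 3} : Set (Fin 8)) = {0, 3, 4} := by
        ext x; simp only [mem_insert_iff, mem_singleton_iff]; tauto
      rw [this]
      exact k034
    have h5' : (5 : Fin 8) ∈ N.closure {0, 3} := by
      have h5 : (5 : Fin 8) ∈ N.closure {1, 3} := by
        refine cl 5 1 3 i13 ?_
        have : ({5, 1, 3} : Set (Fin 8)) = {1, 3, 5} := by
          ext x; simp only [mem_insert_iff, mem_singleton_iff]; tauto
        rw [this]
        exact k135
      refine N.closure_subset_closure_of_subset_closure ?_ h5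
      rintro x (rfl | rfl)
      · exact h1'
      · exact h3'
    have h2' : (2 : Fin 8) ∈ N.closure {0, 3} := by
      have h2 : (2 : Fin 8) ∈ N.closure {4, 5} := cl 2 4 5 i45 k245
      refine N.closure_subset_closure_of_subset_closure ?_ h2
      rintro x (rfl | rfl)
      · exact h4'
      · exact h5'
    obtain ⟨m, hm, hm64, hB⟩ := hA
    have hsub : S 8 m ⊆ N.closure {0, 3} := by
      have hb : ∀ m ∈ LM, m < 64 → m.testBit 6 = false ∧ m.testBit 7 = false := by decide
      have hb' := hb m hm hm64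
      intro x hx
      rw [mem_S] at hx
      fin_cases x
      · exact h0'
      · exact h1'
      · exact h2'
      · exact h3'
      · exact h4'
      · exact h5'
      · exact absurd hx (by simp [hb'.1])
      · exact absurd hx (by simp [hb'.2])
    have h4 := hrank2 0 3 _ hB.indep hsub
    -- compare with the basis `{6, 0, 2}`
    have h5 : (S 8 m).encard = (S 8 69).encard :=
      hB.encard_eq_encard_of_isBase (hF 69 (by simp))
    have h6 : ({6, 0, 2} : Set (Fin 8)).encard ≤ (S 8 69).encard := by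
      apply Set.encard_le_encard
      rintro x (rfl | rfl | rfl) <;> decide
    have h3 : ({6, 0, 2} : Set (Fin 8)).encard = 3 := by
      rw [Set.encard_eq_three]
      exact ⟨6, 0, 2, by decide, by decide, by decide, rfl⟩
    rw [h3, ← h5] at h6
    exact absurd (h6.trans h4) (by decide)

/-- the masks of the bases of the facet with `6` -/
def L14 : List ℕ := [69, 70, 73, 74, 76, 81, 82, 84, 88, 97, 98, 100, 104, 112]

/-- a face of a polytope containing `P_{M'}` as a subset which contains the barycentre of the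
vectors of `602`, `613`, `645` contains all vectors of bases of `M'` with `6`, without `7` -/
theorem face_contains {G : Set (Fin 8 → ℝ)} (hG : IsFace (polytope MP) G)
    (hp : (1 / 3 : ℝ) • vec (S 8 69) + (2 / 3 : ℝ) • ((1 / 2 : ℝ) • vec (S 8 74) +
      (1 / 2 : ℝ) • vec (S 8 112)) ∈ G) : ∀ m ∈ L14, vec (S 8 m) ∈ G := by
  have hb : ∀ m ∈ LP, vec (S 8 m) ∈ polytope MP := fun m hm => vec_mem_polytope ⟨m, hm, rfl⟩
  have b69 := hb 69 (by decide)
  have b74 := hb 74 (by decide)
  have b112 := hb 112 (by decide)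
  have hcv := convex_polytope MP
  have h69 : vec (S 8 69) ∈ G :=
    hG.2.left_mem_of_mem_openSegment b69
      (hcv b74 b112 (by norm_num : (0 : ℝ) ≤ 1 / 2) (by norm_num : (0 : ℝ) ≤ 1 / 2) (by norm_num))
      hp ⟨1 / 3, 2 / 3, by norm_num, by norm_num, by norm_num, rfl⟩
  have h74 : vec (S 8 74) ∈ G := by
    refine hG.2.left_mem_of_mem_openSegment b74
      (hcv b69 b112 (by norm_num : (0 : ℝ) ≤ 1 / 2) (by norm_num : (0 : ℝ) ≤ 1 / 2) (by norm_num))
      hp ⟨1 / 3, 2 / 3, by norm_num, by norm_num, by norm_num, ?_⟩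
    module
  have h112 : vec (S 8 112) ∈ G := by
    refine hG.2.left_mem_of_mem_openSegment b112
      (hcv b69 b74 (by norm_num : (0 : ℝ) ≤ 1 / 2) (by norm_num : (0 : ℝ) ≤ 1 / 2) (by norm_num))
      hp ⟨1 / 3, 2 / 3, by norm_num, by norm_num, by norm_num, ?_⟩
    module
  have step : ∀ (u v x y : ℕ), vec (S 8 u) ∈ G → vec (S 8 v) ∈ G → x ∈ LP → y ∈ LP →
      (∀ i : Fin 8, (x.testBit i).toNat + (y.testBit i).toNat =
        (u.testBit i).toNat + (v.testBit i).toNat) → vec (S 8 x) ∈ G := by
    intro u v x y hu hv hx hy h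
    exact mid hG hu hv (hb x hx) (hb y hy) (vec_rel x y u v h)
  -- 69 = 602, 74 = 613, 112 = 645
  have h73 : vec (S 8 73) ∈ G := step 69 74 73 70 h69 h74 (by decide) (by decide) (by decide)
  have h70 : vec (S 8 70) ∈ G := step 69 74 70 73 h69 h74 (by decide) (by decide) (by decide)
  have h81 : vec (S 8 81) ∈ G := step 69 112 81 100 h69 h112 (by decide) (by decide) (by decide)
  have h100 : vec (S 8 100) ∈ G := step 69 112 100 81 h69 h112 (by decide) (by decide) (by decide)
  have h97 : vec (S 8 97) ∈ G := step 69 112 97 84 h69 h112 (by decide) (by decide) (by decide)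
  have h84 : vec (S 8 84) ∈ G := step 69 112 84 97 h69 h112 (by decide) (by decide) (by decide)
  have h82 : vec (S 8 82) ∈ G := step 74 112 82 104 h74 h112 (by decide) (by decide) (by decide)
  have h104 : vec (S 8 104) ∈ G := step 74 112 104 82 h74 h112 (by decide) (by decide) (by decide)
  have h98 : vec (S 8 98) ∈ G := step 74 112 98 88 h74 h112 (by decide) (by decide) (by decide)
  have h88 : vec (S 8 88) ∈ G := step 74 112 88 98 h74 h112 (by decide) (by decide) (by decide)
  have h76 : vec (S 8 76) ∈ G := step 69 88 76 81 h69 h88 (by decide) (by decide) (by decide)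
  intro m hm
  simp only [L14, List.mem_cons, List.not_mem_nil, or_false] at hm
  rcases hm with rfl | rfl | rfl | rfl | rfl | rfl | rfl | rfl | rfl | rfl | rfl | rfl | rfl | rfl
  all_goals assumption

theorem not_cell (C : Set (Set (Fin 8 → ℝ))) (hC : IsMatroidSubdivision MM C) :
    ¬ IsCell C (polytope MP) := by
  intro hcell
  have hsub : polytope MP ⊆ polytope MM := polytope_mono fun B => MP_le
  have hb : ∀ m ∈ LP, vec (S 8 m) ∈ polytope MP := fun m hm => vec_mem_polytope ⟨m, hm, rfl⟩
  have b69 := hb 69 (by decide)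
  have b74 := hb 74 (by decide)
  have b112 := hb 112 (by decide)
  have hcv := convex_polytope MP
  set p : Fin 8 → ℝ := (1 / 3 : ℝ) • vec (S 8 69) + (2 / 3 : ℝ) • ((1 / 2 : ℝ) • vec (S 8 74) +
      (1 / 2 : ℝ) • vec (S 8 112)) with hp
  have hpP : p ∈ polytope MP :=
    hcv b69 (hcv b74 b112 (by norm_num : (0 : ℝ) ≤ 1 / 2) (by norm_num : (0 : ℝ) ≤ 1 / 2)
      (by norm_num)) (by norm_num) (by norm_num) (by norm_num)
  have hv : vec (S 8 11) ∈ polytope MM := vec_mem_polytope ⟨11, by decide, rfl⟩
  obtain ⟨Q, hQ, hpQ, t, ht0, ht1, htQ⟩ := exists_cell_near hC.isComplex hC.union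
    (convex_polytope MM) (hsub hpP) hv
  obtain ⟨N, hNE, rfl⟩ := hC.cells Q hQ
  have hNM : polytope N ⊆ polytope MM := by
    rw [← hC.union]
    exact subset_sUnion_of_mem hQ.1
  have hGQ := (hC.isComplex.inter _ hQ.1 _ hcell.1).1
  have hGP := (hC.isComplex.inter _ hQ.1 _ hcell.1).2
  have hall := face_contains hGP ⟨hpQ, hpP⟩
  -- the vector of `601` is not in `Q`
  have h67 : ¬ N.IsBase (S 8 67) := by
    intro h
    have h1 : vec (S 8 67) ∈ polytope N ∩ polytope MP :=
      mid hGQ (hall 69 (by decide)) (hall 74 (by decide)) (vec_mem_polytope h)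
        (hall 76 (by decide)).1 (vec_rel 67 76 69 74 (by decide))
    obtain ⟨m, hm, hm'⟩ := isBase_of_vec_mem h1.2
    have h2 := S_inj8 67 (by decide) m ((by decide : ∀ m ∈ LP, m ∈ LM) m hm) hm'
    subst h2
    exact absurd hm (by decide)
  -- `Q` has a basis in `0, ..., 5`
  have hA : ∃ m ∈ LM, m < 64 ∧ N.IsBase (S 8 m) := by
    by_contra hcon
    push Not at hcon
    have h1 : ∀ B, N.IsBase B → fA (vec B) ≤ 2 := by
      intro B hB
      obtain ⟨m, hm, rfl⟩ := isBase_of_subset hNM hB
      have hm64 : 64 ≤ m := by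
        by_contra h
        exact hcon m hm (by omega) hB
      rw [fA_S]
      have h2 : ∀ m ∈ LM, 64 ≤ m → (m.testBit 0).toNat + (m.testBit 1).toNat +
        (m.testBit 2).toNat + (m.testBit 3).toNat + (m.testBit 4).toNat +
        (m.testBit 5).toNat ≤ 2 := by decide
      exact_mod_cast h2 m hm hm64
    have h3 := le_of_mem fA 2 h1 htQ
    have h4 : fA (p + t • (vec (S 8 11) - p)) = 2 + t := by
      rw [map_add, map_smul, map_sub, hp, map_add, map_smul, map_smul, map_add, map_smul, map_smul,
        fA_S, fA_S, fA_S, fA_S]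
      have e1 : ((69 : ℕ).testBit 0).toNat + ((69 : ℕ).testBit 1).toNat +
        ((69 : ℕ).testBit 2).toNat + ((69 : ℕ).testBit 3).toNat + ((69 : ℕ).testBit 4).toNat +
        ((69 : ℕ).testBit 5).toNat = 2 := by decide
      have e2 : ((74 : ℕ).testBit 0).toNat + ((74 : ℕ).testBit 1).toNat +
        ((74 : ℕ).testBit 2).toNat + ((74 : ℕ).testBit 3).toNat + ((74 : ℕ).testBit 4).toNat +
        ((74 : ℕ).testBit 5).toNat = 2 := by decide
      have e3 : ((112 : ℕ).testBit 0).toNat + ((112 : ℕ).testBit 1).toNat +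
        ((112 : ℕ).testBit 2).toNat + ((112 : ℕ).testBit 3).toNat + ((112 : ℕ).testBit 4).toNat +
        ((112 : ℕ).testBit 5).toNat = 2 := by decide
      have e4 : ((11 : ℕ).testBit 0).toNat + ((11 : ℕ).testBit 1).toNat +
        ((11 : ℕ).testBit 2).toNat + ((11 : ℕ).testBit 3).toNat + ((11 : ℕ).testBit 4).toNat +
        ((11 : ℕ).testBit 5).toNat = 3 := by decide
      rw [e1, e2, e3, e4]
      simp only [smul_eq_mul]
      push_cast
      ring
    rw [h4] at h3
    linarith
  refine combinatorial N hNE (fun B hB => isBase_of_subset hNM hB) ?_ h67 hA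
  intro m hm
  exact isBase_of_vec_mem (hall m hm).1

end Pool.Agent.R567.MSub
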