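import Pool.Agent.R567.MSub.Glue

set_option autoImplicit false

/-!
# A matroid subdivision of the hypersimplex `Δ(3, 9)`

Elements `0, ..., 8`; nine lines: `0123`, `0456`, `078`, `714`, `725`, `736`, `815`, `826`, `834`.
-/

namespace Pool.Agent.R567.MSub

open Set

/-- masks of the nine lines -/
def K9 : List ℕ := [15, 113, 385, 146, 164, 200, 290, 324, 280]

/-- masks of the triples -/
def Tr : List ℕ := [
  7, 11, 13, 14, 19, 21, 22, 25, 26, 28, 35, 37, 38, 41, 42, 44, 49, 50, 52, 56, 67, 69, 70, 73,
  74, 76, 81, 82, 84, 88, 97, 98, 100, 104, 112, 131, 133, 134, 137, 138, 140, 145, 146, 148,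
  152, 161, 162, 164, 168, 176, 193, 194, 196, 200, 208, 224, 259, 261, 262, 265, 266, 268, 273,
  274, 276, 280, 289, 290, 292, 296, 304, 321, 322, 324, 328, 336, 352, 385, 386, 388, 392, 400,
  416, 448]

/-- masks of the triples not contained in a line -/
def L0 : List ℕ := [
  19, 21, 22, 25, 26, 28, 35, 37, 38, 41, 42, 44, 50, 52, 56, 67, 69, 70, 73, 74, 76, 82, 84, 88,
  98, 100, 104, 131, 133, 134, 137, 138, 140, 145, 148, 152, 161, 162, 168, 176, 193, 194, 196,
  208, 224, 259, 261, 262, 265, 266, 268, 273, 274, 276, 289, 292, 296, 304, 321, 322, 328, 336,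
  352, 386, 388, 392, 400, 416, 448]

/-- masks of the triples with at least two elements in `K` -/
def LW (K : ℕ) : List ℕ := Tr.filter fun m => decide (2 ≤ cnt 9 K m)

/-- potential: is the triple contained in a line -/
def φ1 (m : ℕ) : ℕ := (K9.any fun K => cnt 9 K m == 3).toNat

/-- potential: the number of elements missing to have two elements in `K` -/
def φ2 (K m : ℕ) : ℕ := 2 - cnt 9 K m

theorem chk1 : (K9.all fun K => Tr.all fun m => !(cnt 9 K m == 3) || Tr.all fun m' =>
    !(decide (cnt 9 K m' < 2)) || exOK 9 Tr φ1 m m') = true := by decide +kernel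

theorem chk2 : (K9.all fun K => Tr.all fun m => !(decide (cnt 9 K m < 2)) || Tr.all fun m' =>
    !(decide (2 < cnt 9 K m')) || exOK 9 Tr (φ2 K) m m') = true := by decide +kernel

theorem ex0 : exchB 9 (fun m => L0.contains m) L0 = true := by decide +kernel

theorem exW : ∀ K ∈ K9, exchB 9 (fun m => Tr.contains m && decide (2 ≤ cnt 9 K m)) (LW K) = true :=
  by decide +kernel

end Pool.Agent.R567.MSub
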