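import Pool.Agent.R567.MSub.Mask

set_option autoImplicit false

/-!
# Faces of polytopes, gluing of polytopes along common faces
-/

namespace Pool.Agent.R567.MSub

open Set

variable {n : ℕ}

theorem IsFace.refl' {P : Set (Fin n → ℝ)} (h : Convex ℝ P) : IsFace P P := ⟨h, IsExtreme.refl ℝ P⟩

theorem IsFace.trans' {P F G : Set (Fin n → ℝ)} (h : IsFace P F) (h' : IsFace F G) : IsFace P G :=
  ⟨h'.1, h.2.trans h'.2⟩

theorem IsFace.inter' {P F G : Set (Fin n → ℝ)} (h : IsFace P F) (h' : IsFace P G) :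
    IsFace P (F ∩ G) :=
  ⟨h.1.inter h'.1, h.2.inter h'.2⟩

theorem IsFace.mono' {P Q F : Set (Fin n → ℝ)} (h : IsFace P F) (hQ : Q ⊆ P) (hF : F ⊆ Q) :
    IsFace Q F :=
  ⟨h.1, hF, fun _ hx _ hy _ hz hs => h.2.left_mem_of_mem_openSegment (hQ hx) (hQ hy) hz hs⟩

/-- the points with positive weight of a convex combination in a face are in the face -/
theorem face_support {P F : Set (Fin n → ℝ)} (hP : Convex ℝ P) (hF : IsFace P F) {ι : Type*}
    [Fintype ι] (z : ι → Fin n → ℝ) (w : ι → ℝ) (hz : ∀ i, z i ∈ P) (hw : ∀ i, 0 ≤ w i)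
    (hw1 : ∑ i, w i = 1) (hx : ∑ i, w i • z i ∈ F) (i : ι) (hi : 0 < w i) : z i ∈ F := by
  classical
  set x := ∑ i, w i • z i with hxdef
  have hpos : 0 < 1 + w i := by linarith
  set y : Fin n → ℝ := ∑ j, (w j * (1 + w i) - if j = i then w i else 0) • z j with hy
  have hyP : y ∈ P := by
    refine hP.sum_mem ?_ ?_ (fun j _ => hz j)
    · intro j _
      by_cases hj : j = i
      · subst hj
        simp only [if_true]
        nlinarith
      · simp only [hj, if_false, sub_zero]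
        exact mul_nonneg (hw j) hpos.le
    · rw [Finset.sum_sub_distrib, ← Finset.sum_mul, hw1]
      simp
  have hyx : y = (1 + w i) • x - w i • z i := by
    rw [hy, hxdef, Finset.smul_sum]
    have : ∀ j, (w j * (1 + w i) - if j = i then w i else 0) • z j =
        (1 + w i) • w j • z j - (if j = i then w i • z i else 0) := by
      intro j
      by_cases hj : j = i
      · subst hj
        simp only [if_true]
        rw [sub_smul, smul_smul, mul_comm]
      · simp only [hj, if_false, sub_zero]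
        rw [smul_smul, mul_comm]
    rw [Finset.sum_congr rfl (fun j _ => this j), Finset.sum_sub_distrib]
    simp
  refine hF.2.left_mem_of_mem_openSegment (hz i) hyP hx
    ⟨w i / (1 + w i), 1 / (1 + w i), by positivity, by positivity, by field_simp; ring, ?_⟩
  rw [hyx, smul_sub, smul_smul, smul_smul]
  have h1 : 1 / (1 + w i) * (1 + w i) = 1 := by field_simp
  have h2 : 1 / (1 + w i) * w i = w i / (1 + w i) := by ring
  rw [h1, h2, one_smul]
  abel

/-- a face of the convex hull of `S` is the convex hull of the points of `S` in it -/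
theorem face_eq_convexHull {S F : Set (Fin n → ℝ)} (hF : IsFace (convexHull ℝ S) F) :
    F = convexHull ℝ (S ∩ F) := by
  apply subset_antisymm
  · intro x hx
    obtain ⟨ι, hι, z, w, hz, -, hw, hw1, hwx⟩ :=
      eq_pos_convex_span_of_mem_convexHull (hF.2.subset hx)
    have hzF : ∀ i, z i ∈ F := by
      intro i
      refine face_support (convex_convexHull ℝ S) hF z w
        (fun i => subset_convexHull ℝ S (hz ⟨i, rfl⟩)) (fun i => (hw i).le) hw1 ?_ i (hw i)
      rw [hwx]
      exact hx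
    rw [← hwx]
    exact (convex_convexHull ℝ _).sum_mem (fun i _ => (hw i).le) hw1
      (fun i _ => subset_convexHull ℝ _ ⟨hz ⟨i, rfl⟩, hzF i⟩)
  · exact convexHull_min inter_subset_right hF.1

theorem finite_faces {S : Set (Fin n → ℝ)} (hS : S.Finite) :
    {F | IsFace (convexHull ℝ S) F}.Finite := by
  refine (hS.finite_subsets.image (fun T => convexHull ℝ T)).subset ?_
  intro F hF
  exact ⟨S ∩ F, inter_subset_left, (face_eq_convexHull hF).symm⟩

/-- the points of a convex set where a bounded linear functional attains its upper bound are a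
face -/
theorem isFace_of_le {P : Set (Fin n → ℝ)} (hP : Convex ℝ P) (f : (Fin n → ℝ) →ₗ[ℝ] ℝ) (c : ℝ)
    (h : ∀ x ∈ P, f x ≤ c) : IsFace P {x | x ∈ P ∧ f x = c} := by
  refine ⟨?_, fun x hx => hx.1, ?_⟩
  · intro x hx y hy a b ha hb hab
    refine ⟨hP hx.1 hy.1 ha hb hab, ?_⟩
    rw [map_add, map_smul, map_smul, hx.2, hy.2, smul_eq_mul, smul_eq_mul, ← add_mul, hab, one_mul]
  · rintro x hx y hy z hz ⟨a, b, ha, hb, hab, rfl⟩
    refine ⟨hx, ?_⟩
    have h1 := h x hx
    have h2 := h y hy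
    have h3 := hz.2
    rw [map_add, map_smul, map_smul, smul_eq_mul, smul_eq_mul] at h3
    by_contra hne
    have h4 : f x < c := lt_of_le_of_ne h1 hne
    have h5 : a * f x < a * c := mul_lt_mul_of_pos_left h4 ha
    have h6 : b * f y ≤ b * c := mul_le_mul_of_nonneg_left h2 hb.le
    have h7 : a * c + b * c = c := by rw [← add_mul, hab, one_mul]
    linarith

theorem isFace_of_ge {P : Set (Fin n → ℝ)} (hP : Convex ℝ P) (f : (Fin n → ℝ) →ₗ[ℝ] ℝ) (c : ℝ)
    (h : ∀ x ∈ P, c ≤ f x) : IsFace P {x | x ∈ P ∧ f x = c} := by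
  have := isFace_of_le hP (-f) (-c) (fun x hx => by simpa using h x hx)
  simpa using this

/-- **Gluing.** Polytopes `P i` glued to a polytope `P₀` along common faces `K i`. -/
theorem glue {ι : Type*} [Finite ι] (P₀ : Set (Fin n → ℝ)) (P K : ι → Set (Fin n → ℝ))
    (h₀ : ∃ S : Set (Fin n → ℝ), S.Finite ∧ P₀ = convexHull ℝ S)
    (hP : ∀ i, ∃ S : Set (Fin n → ℝ), S.Finite ∧ P i = convexHull ℝ S)
    (hK₀ : ∀ i, IsFace P₀ (K i)) (hK : ∀ i, IsFace (P i) (K i)) (hKi : ∀ i, P₀ ∩ P i ⊆ K i)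
    (hij : ∀ i j, i ≠ j → P i ∩ P j ⊆ K i ∩ K j) :
    IsPolytopalComplex ({F | IsFace P₀ F} ∪ ⋃ i, {F | IsFace (P i) F}) := by
  have hc₀ : Convex ℝ P₀ := by
    obtain ⟨S, -, rfl⟩ := h₀
    exact convex_convexHull ℝ S
  have hc : ∀ i, Convex ℝ (P i) := by
    intro i
    obtain ⟨S, -, h⟩ := hP i
    rw [h]
    exact convex_convexHull ℝ S
  have hpoly : ∀ Q : Set (Fin n → ℝ), (∃ S : Set (Fin n → ℝ), S.Finite ∧ Q = convexHull ℝ S) →
      ∀ F, IsFace Q F → ∃ S : Set (Fin n → ℝ), S.Finite ∧ F = convexHull ℝ S := by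
    rintro _ ⟨S, hS, rfl⟩ F hF
    exact ⟨S ∩ F, hS.subset inter_subset_left, face_eq_convexHull hF⟩
  -- two faces of the same polytope
  have same : ∀ (Q F G : Set (Fin n → ℝ)), IsFace Q F → IsFace Q G →
      IsFace F (F ∩ G) ∧ IsFace G (F ∩ G) := fun Q F G hF hG =>
    ⟨(hF.inter' hG).mono' hF.2.subset inter_subset_left,
      (hF.inter' hG).mono' hG.2.subset inter_subset_right⟩
  -- a face of `P₀` and a face of `P i`
  have mixed : ∀ (i : ι) (F G : Set (Fin n → ℝ)), IsFace P₀ F → IsFace (P i) G →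
      IsFace F (F ∩ G) ∧ IsFace G (F ∩ G) := by
    intro i F G hF hG
    have h1 : F ∩ G = (F ∩ K i) ∩ (G ∩ K i) := by
      ext x
      constructor
      · rintro ⟨hx1, hx2⟩
        have : x ∈ K i := hKi i ⟨hF.2.subset hx1, hG.2.subset hx2⟩
        exact ⟨⟨hx1, this⟩, hx2, this⟩
      · rintro ⟨⟨hx1, -⟩, hx2, -⟩
        exact ⟨hx1, hx2⟩
    have h2 : IsFace (K i) (F ∩ K i) :=
      (hF.inter' (hK₀ i)).mono' (hK₀ i).2.subset inter_subset_right
    have h3 : IsFace (K i) (G ∩ K i) :=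
      (hG.inter' (hK i)).mono' (hK i).2.subset inter_subset_right
    have h4 : IsFace (K i) (F ∩ G) := h1 ▸ h2.inter' h3
    exact ⟨((hK₀ i).trans' h4).mono' hF.2.subset inter_subset_left,
      ((hK i).trans' h4).mono' hG.2.subset inter_subset_right⟩
  have mixed2 : ∀ (i j : ι) (F G : Set (Fin n → ℝ)), i ≠ j → IsFace (P i) F → IsFace (P j) G →
      IsFace F (F ∩ G) := by
    intro i j F G hne hF hG
    have hL : IsFace P₀ (K i ∩ K j) := (hK₀ i).inter' (hK₀ j)
    have hLi : IsFace (K i) (K i ∩ K j) := hL.mono' (hK₀ i).2.subset inter_subset_left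
    have hLj : IsFace (K j) (K i ∩ K j) := hL.mono' (hK₀ j).2.subset inter_subset_right
    have hPi : IsFace (P i) (K i ∩ K j) := (hK i).trans' hLi
    have hPj : IsFace (P j) (K i ∩ K j) := (hK j).trans' hLj
    have h1 : F ∩ G = (F ∩ (K i ∩ K j)) ∩ (G ∩ (K i ∩ K j)) := by
      ext x
      constructor
      · rintro ⟨hx1, hx2⟩
        have : x ∈ K i ∩ K j := hij i j hne ⟨hF.2.subset hx1, hG.2.subset hx2⟩
        exact ⟨⟨hx1, this⟩, hx2, this⟩
      · rintro ⟨⟨hx1, -⟩, hx2, -⟩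
        exact ⟨hx1, hx2⟩
    have h2 : IsFace (K i ∩ K j) (F ∩ (K i ∩ K j)) :=
      (hF.inter' hPi).mono' hPi.2.subset inter_subset_right
    have h3 : IsFace (K i ∩ K j) (G ∩ (K i ∩ K j)) :=
      (hG.inter' hPj).mono' hPj.2.subset inter_subset_right
    have h4 : IsFace (K i ∩ K j) (F ∩ G) := h1 ▸ h2.inter' h3
    exact (hPi.trans' h4).mono' hF.2.subset inter_subset_left
  refine ⟨?_, ?_, ?_, ?_⟩
  · refine Set.Finite.union ?_ (Set.finite_iUnion fun i => ?_)
    · obtain ⟨S, hS, rfl⟩ := h₀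
      exact finite_faces hS
    · obtain ⟨S, hS, h⟩ := hP i
      rw [h]
      exact finite_faces hS
  · rintro Q (hQ | hQ)
    · exact hpoly _ h₀ Q hQ
    · obtain ⟨i, hi⟩ := mem_iUnion.mp hQ
      exact hpoly _ (hP i) Q hi
  · rintro Q (hQ | hQ) F hF
    · exact Or.inl (IsFace.trans' hQ hF)
    · obtain ⟨i, hi⟩ := mem_iUnion.mp hQ
      exact Or.inr (mem_iUnion.mpr ⟨i, IsFace.trans' hi hF⟩)
  · rintro F (hF | hF) G (hG | hG)
    · exact same _ _ _ hF hG
    · obtain ⟨i, hi⟩ := mem_iUnion.mp hG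
      exact mixed i F G hF hi
    · obtain ⟨i, hi⟩ := mem_iUnion.mp hF
      rw [inter_comm]
      exact (mixed i G F hG hi).symm
    · obtain ⟨i, hi⟩ := mem_iUnion.mp hF
      obtain ⟨j, hj⟩ := mem_iUnion.mp hG
      by_cases hne : i = j
      · subst hne
        exact same _ _ _ hi hj
      · refine ⟨mixed2 i j F G hne hi hj, ?_⟩
        rw [inter_comm]
        exact mixed2 j i G F (Ne.symm hne) hj hi

end Pool.Agent.R567.MSub
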