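import Pool.Agent.R567.MSub.Carriers

set_option autoImplicit false

/-!
# In every refinement the face of the line `0123` is a member
-/

namespace Pool.Agent.R567.MSub

open Set

def PA7 : List (ℕ × ℕ) := [(131, 140), (133, 138), (137, 134)]
def PA8 : List (ℕ × ℕ) := [(259, 268), (261, 266), (265, 262)]
def PB7 : List (ℕ × ℕ) := [(145, 224), (161, 208), (193, 176)]
def PB8 : List (ℕ × ℕ) := [(273, 352), (289, 336), (321, 304)]

def sA7 : List (ℕ × ℕ) := [(4, 7), (5, 7), (6, 7), (8, 7)]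
def sA8 : List (ℕ × ℕ) := [(4, 8), (5, 8), (6, 8), (7, 8)]
def sB7 : List (ℕ × ℕ) := [(1, 7), (2, 7), (3, 7), (8, 7)]
def s7 : List (ℕ × ℕ) := [(8, 0), (4, 1), (5, 2), (6, 3)]
def s8 : List (ℕ × ℕ) := [(7, 0), (1, 5), (2, 6), (3, 4)]
def s7' : List (ℕ × ℕ) := [(1, 4), (2, 5), (3, 6)]
def s8' : List (ℕ × ℕ) := [(5, 1), (6, 2), (4, 3)]

def G7 : List ℕ := GII 7 [385, 146, 164, 200]
def G8 : List ℕ := GII 8 [385, 290, 324, 280]

def ltB (G : List ℕ) (sws : List (ℕ × ℕ)) : Bool :=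
  sws.all fun s => G.all fun m => !m.testBit s.1 || decide (m - 2 ^ s.1 + 2 ^ s.2 < 512)

theorem ltB_spec {G : List ℕ} {sws : List (ℕ × ℕ)} (h : ltB G sws = true) :
    ∀ s ∈ sws, ∀ m ∈ G, m.testBit s.1 = true → m - 2 ^ s.1 + 2 ^ s.2 < 512 := by
  intro s hs m hm hb
  unfold ltB at h
  rw [List.all_eq_true] at h
  have h1 := h s hs
  rw [List.all_eq_true] at h1
  have h2 := h1 m hm
  rw [hb] at h2
  simpa using h2

theorem c_A7 : (ltB (GI 15) sA7 && swsB (GI 15) lA sA7 &&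
    presB lA (GI 15) sA7 [1, 2, 4, 8] PA7) = true := by decide +kernel

theorem c_A8 : (ltB (GI 15) sA8 && swsB (GI 15) lA sA8 &&
    presB lA (GI 15) sA8 [1, 2, 4, 8] PA8) = true := by decide +kernel

theorem c_B7 : (ltB (GI 113) sB7 && swsB (GI 113) lB sB7 &&
    presB lB (GI 113) sB7 [1, 16, 32, 64] PB7) = true := by decide +kernel

theorem c_7 : (ltB G7 s7 && swsB G7 l7 s7 && presB l7 G7 s7 [257, 18, 36, 72] PA7) = true := by
  decide +kernel

theorem c_8 : (ltB G8 s8 && swsB G8 l8 s8 && presB l8 G8 s8 [129, 24, 34, 68] PB8) = true := by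
  decide +kernel

theorem c_x : ((ltB G7 s7' && swsB G7 l7 s7') && (ltB G8 s8' && swsB G8 l8 s8') &&
    (ltB (GI 113) [(7, 8)] && swsB (GI 113) lB [(7, 8)]) &&
    (ltB (GI 15) [(8, 7), (7, 4)] && swsB (GI 15) lA [(8, 7)]) &&
    ([4, 5, 6, 8].all fun c => ltB (GI 15) [(7, c)] && swsB (GI 15) lA [(7, c)])) = true := by
  decide +kernel

theorem c_rel : (relB PA7 && relB PA8 && relB PB7 && relB PB8) = true := by decide +kernel

/-- swap in both masks of a pair -/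
def nr2 (sws : List (ℕ × ℕ)) (e : ℕ × ℕ) : ℕ × ℕ := (nrm sws e.1, nrm sws e.2)

/-- both vectors of a pair are in `T` -/
def X (T : Set (Fin 9 → ℝ)) (e : ℕ × ℕ) : Prop := vec (S 9 e.1) ∈ T ∧ vec (S 9 e.2) ∈ T

theorem X_nr2 {C : Set (Set (Fin 9 → ℝ))} {l G : List ℕ} {T : Set (Fin 9 → ℝ)}
    (h : Dat C l G T) (hl : l ≠ []) {sws : List (ℕ × ℕ)} (hs : ltB G sws = true)
    (hsw : swsB G l sws = true) {e : ℕ × ℕ} (h1 : e.1 < 512) (h2 : e.2 < 512) (hX : X T e) :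
    X T (nr2 sws e) :=
  ⟨nrm_mem h hl sws (ltB_spec hs) hsw (h.good _ h1 hX.1) hX.1,
    nrm_mem h hl sws (ltB_spec hs) hsw (h.good _ h2 hX.2) hX.2⟩

/-- the cyclic shift -/
theorem cyc : ∀ e ∈ PA7, (nr2 s7' e ∈ PB7 ∧ nr2 [(7, 8)] (nr2 s7' e) ∈ PB8 ∧
    nr2 s8' (nr2 [(7, 8)] (nr2 s7' e)) ∈ PA8) ∧
    (nr2 [(8, 7)] (nr2 s8' (nr2 [(7, 8)] (nr2 s7' e))) ∈ PA7 ∧ (e.1 < 512 ∧ e.2 < 512)) ∧
    (((nr2 s7' e).1 < 512 ∧ (nr2 s7' e).2 < 512) ∧
    (nr2 [(7, 8)] (nr2 s7' e)).1 < 512 ∧ (nr2 [(7, 8)] (nr2 s7' e)).2 < 512) ∧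
    (nr2 s8' (nr2 [(7, 8)] (nr2 s7' e))).1 < 512 ∧
    (nr2 s8' (nr2 [(7, 8)] (nr2 s7' e))).2 < 512 := by
  decide +kernel

theorem step {C : Set (Set (Fin 9 → ℝ))} (hC : IsMatroidSubdivision U9 C)
    (href : Refines C Sig0) {TA : Set (Fin 9 → ℝ)} (hA : Dat C lA (GI 15) TA) {e : ℕ × ℕ}
    (he : e ∈ PA7) (hX : X TA e) :
    X TA (nr2 [(8, 7)] (nr2 s8' (nr2 [(7, 8)] (nr2 s7' e)))) := by
  obtain ⟨TB, hB⟩ := exists_dat_I hC href (l := lB) (by decide) (by decide) (K := 113)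
    (by decide) (by decide)
  obtain ⟨T7, h7⟩ := exists_dat_II hC href (l := l7) (by decide) (by decide) (x := 7)
    (Ks := [385, 146, 164, 200]) (by decide) (by decide) (by decide +kernel) (by decide)
  obtain ⟨T8, h8⟩ := exists_dat_II hC href (l := l8) (by decide) (by decide) (x := 8)
    (Ks := [385, 290, 324, 280]) (by decide) (by decide) (by decide +kernel) (by decide)
  obtain ⟨⟨e1, e2, e3⟩, ⟨e4, e5, e6⟩, ⟨⟨e7, e8⟩, e9, e10⟩, e11, e12⟩ := cyc e he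
  have cA7 := c_A7
  have cA8 := c_A8
  have cB7 := c_B7
  have c7 := c_7
  have c8 := c_8
  have cx := c_x
  have cr := c_rel
  simp only [Bool.and_eq_true] at cA7 cA8 cB7 c7 c8 cx cr
  obtain ⟨⟨⟨r1, r2⟩, r3⟩, r4⟩ := cr
  obtain ⟨⟨⟨⟨⟨x1, x2⟩, x3, x4⟩, x5, x6⟩, x7, x8⟩, -⟩ := cx
  -- from `TA` to `T7`
  have p7 := present hC.isComplex h7 (by decide) (ltB_spec c7.1.1) c7.1.2 c7.2
  have y1 : X T7 e := transfer_pairs hC.isComplex h7.car.1 hA.car.1 r1 p7 he hX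
  have y2 : X T7 (nr2 s7' e) := X_nr2 h7 (by decide) x1 x2 e5 e6 y1
  have pB := present hC.isComplex hB (by decide) (ltB_spec cB7.1.1) cB7.1.2 cB7.2
  have y3 : X TB (nr2 s7' e) := transfer_pairs hC.isComplex hB.car.1 h7.car.1 r3 pB e1 y2
  have y4 : X TB (nr2 [(7, 8)] (nr2 s7' e)) := X_nr2 hB (by decide) x5 x6 e7 e8 y3
  have p8 := present hC.isComplex h8 (by decide) (ltB_spec c8.1.1) c8.1.2 c8.2
  have y5 : X T8 (nr2 [(7, 8)] (nr2 s7' e)) :=
    transfer_pairs hC.isComplex h8.car.1 hB.car.1 r4 p8 e2 y4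
  have y6 : X T8 (nr2 s8' (nr2 [(7, 8)] (nr2 s7' e))) := X_nr2 h8 (by decide) x3 x4 e9 e10 y5
  have pA := present hC.isComplex hA (by decide) (ltB_spec cA8.1.1) cA8.1.2 cA8.2
  have y7 : X TA (nr2 s8' (nr2 [(7, 8)] (nr2 s7' e))) :=
    transfer_pairs hC.isComplex hA.car.1 h8.car.1 r2 pA e3 y6
  have x7' : ltB (GI 15) [(8, 7)] = true := by
    unfold ltB at x7 ⊢
    rw [List.all_cons, Bool.and_eq_true] at x7
    rw [List.all_cons, Bool.and_eq_true]
    exact ⟨x7.1, rfl⟩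
  exact X_nr2 hA (by decide) x7' x8 e11 e12 y7

theorem cyc_eq : [nr2 [(8, 7)] (nr2 s8' (nr2 [(7, 8)] (nr2 s7' (131, 140)))),
    nr2 [(8, 7)] (nr2 s8' (nr2 [(7, 8)] (nr2 s7' (133, 138)))),
    nr2 [(8, 7)] (nr2 s8' (nr2 [(7, 8)] (nr2 s7' (137, 134))))] =
    [(137, 134), (131, 140), (133, 138)] := by decide +kernel

theorem all_present {C : Set (Set (Fin 9 → ℝ))} (hC : IsMatroidSubdivision U9 C)
    (href : Refines C Sig0) {TA : Set (Fin 9 → ℝ)} (hA : Dat C lA (GI 15) TA) :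
    ∀ e ∈ PA7, X TA e := by
  have cA7 := c_A7
  simp only [Bool.and_eq_true] at cA7
  have pA := present hC.isComplex hA (by decide) (ltB_spec cA7.1.1) cA7.1.2 cA7.2
  have hc := cyc_eq
  simp only [List.cons.injEq, and_true] at hc
  obtain ⟨hc1, hc2, hc3⟩ := hc
  have s1 : X TA (131, 140) → X TA (137, 134) := fun h => by
    have := step hC href hA (by decide) h
    rwa [hc1] at this
  have s2 : X TA (133, 138) → X TA (131, 140) := fun h => by
    have := step hC href hA (by decide) h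
    rwa [hc2] at this
  have s3 : X TA (137, 134) → X TA (133, 138) := fun h => by
    have := step hC href hA (by decide) h
    rwa [hc3] at this
  have h1 : X TA (131, 140) ∧ X TA (133, 138) ∧ X TA (137, 134) := by
    obtain ⟨e, he, hX⟩ := pA
    have he' : e = (131, 140) ∨ e = (133, 138) ∨ e = (137, 134) := by simpa [PA7] using he
    rcases he' with rfl | rfl | rfl
    · exact ⟨hX, s3 (s1 hX), s1 hX⟩
    · exact ⟨s2 hX, hX, s1 (s2 hX)⟩
    · exact ⟨s2 (s3 hX), s3 hX, hX⟩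
  intro e he
  have he' : e = (131, 140) ∨ e = (133, 138) ∨ e = (137, 134) := by simpa [PA7] using he
  rcases he' with rfl | rfl | rfl
  · exact h1.1
  · exact h1.2.1
  · exact h1.2.2

/-- all thirty vectors with two elements in `0123` come from the six with `7` -/
theorem thirty : ∀ m ∈ GI 15, m ∈ [131, 140, 133, 138, 137, 134] ∨
    ∃ c ∈ [4, 5, 6, 8], ∃ m' ∈ [131, 140, 133, 138, 137, 134], m = nrm [(7, c)] m' := by
  decide +kernel

theorem face_full {C : Set (Set (Fin 9 → ℝ))} (hC : IsMatroidSubdivision U9 C)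
    (href : Refines C Sig0) {TA : Set (Fin 9 → ℝ)} (hA : Dat C lA (GI 15) TA) :
    ∀ m ∈ GI 15, vec (S 9 m) ∈ TA := by
  have h1 := all_present hC href hA
  have h2 : ∀ m' ∈ [131, 140, 133, 138, 137, 134], vec (S 9 m') ∈ TA := by
    intro m' hm'
    have ha := h1 (131, 140) (by decide)
    have hb := h1 (133, 138) (by decide)
    have hc := h1 (137, 134) (by decide)
    have : m' = 131 ∨ m' = 140 ∨ m' = 133 ∨ m' = 138 ∨ m' = 137 ∨ m' = 134 := by simpa using hm'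
    rcases this with rfl | rfl | rfl | rfl | rfl | rfl
    · exact ha.1
    · exact ha.2
    · exact hb.1
    · exact hb.2
    · exact hc.1
    · exact hc.2
  have cx := c_x
  simp only [Bool.and_eq_true] at cx
  obtain ⟨-, x9⟩ := cx
  rw [List.all_eq_true] at x9
  intro m hm
  rcases thirty m hm with h3 | ⟨c, hc, m', hm', rfl⟩
  · exact h2 m h3
  · have h4 := x9 c hc
    rw [Bool.and_eq_true] at h4
    have h5 : m' < 512 := by
      have : ∀ m' ∈ [131, 140, 133, 138, 137, 134], m' < 512 := by decide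
      exact this m' hm'
    exact nrm_mem hA (by decide) [(7, c)] (ltB_spec h4.1) h4.2 (hA.good _ h5 (h2 m' hm'))
      (h2 m' hm')

end Pool.Agent.R567.MSub
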