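import Pool.Agent.R567.MSub.Basic

set_option autoImplicit false

/-!
# Matroids given by a list of bit masks
-/

namespace Pool.Agent.R567.MSub

open Set

/-- The subset of `Fin n` with bit mask `m`. -/
def S (n : ℕ) (m : ℕ) : Set (Fin n) := {i | m.testBit i = true}

theorem mem_S {n m : ℕ} {i : Fin n} : i ∈ S n m ↔ m.testBit i = true := Iff.rfl

instance {n m : ℕ} {i : Fin n} : Decidable (i ∈ S n m) :=
  inferInstanceAs (Decidable (m.testBit i = true))

/-- `r` is the mask of `insert b (S m \ {a})` -/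
def isRepl (n m a b r : ℕ) : Bool :=
  (List.range n).all fun i => r.testBit i == ((i == b) || (m.testBit i && !(i == a)))

/-- Boolean check of the exchange property. -/
def exchB (n : ℕ) (p : ℕ → Bool) (L : List ℕ) : Bool :=
  L.all fun m => L.all fun k => (List.range n).all fun a =>
    !(m.testBit a && !k.testBit a) || (List.range n).any fun b =>
      (k.testBit b && !m.testBit b) && (p (m - 2 ^ a + 2 ^ b) && isRepl n m a b (m - 2 ^ a + 2 ^ b))

/-- Boolean check of connectedness. -/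
def connB (n : ℕ) (p : ℕ → Bool) (L : List ℕ) : Bool :=
  (List.range n).all fun x => (List.range n).all fun y => (x == y) ||
    L.any fun m => (m.testBit x && !m.testBit y) &&
      (p (m - 2 ^ x + 2 ^ y) && isRepl n m x y (m - 2 ^ x + 2 ^ y))

theorem S_of_isRepl {n m r : ℕ} {a b : ℕ} (h : isRepl n m a b r = true) :
    ∀ i : Fin n, i ∈ S n r ↔ (i : ℕ) = b ∨ (i ∈ S n m ∧ (i : ℕ) ≠ a) := by
  intro i
  unfold isRepl at h
  rw [List.all_eq_true] at h
  have := h i (List.mem_range.mpr i.2)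
  rw [mem_S, mem_S]
  simp only [beq_iff_eq] at this
  rw [this]
  simp

theorem exch_of {n : ℕ} {p : ℕ → Bool} {L : List ℕ} (h : exchB n p L = true)
    (hp : ∀ m, p m = true → m ∈ L) :
    Matroid.ExchangeProperty (fun B : Set (Fin n) => ∃ m ∈ L, B = S n m) := by
  rintro _ _ ⟨m, hm, rfl⟩ ⟨k, hk, rfl⟩ a ⟨ha, ha'⟩
  unfold exchB at h
  rw [List.all_eq_true] at h
  have h1 := h m hm
  rw [List.all_eq_true] at h1
  have h2 := h1 k hk
  rw [List.all_eq_true] at h2
  have h3 := h2 a (List.mem_range.mpr a.2)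
  rw [mem_S] at ha ha'
  simp only [ha, ha', Bool.true_and, Bool.or_eq_true, Bool.not_eq_eq_eq_not,
    Bool.not_true, Bool.not_false, List.any_eq_true, List.mem_range, Bool.and_eq_true] at h3
  simp at h3
  obtain ⟨b, hb, ⟨hb1, hb2⟩, hb3, hb4⟩ := h3
  refine ⟨⟨b, hb⟩, ⟨hb1, ?_⟩, _, hp _ hb3, ?_⟩
  · rw [mem_S]
    simp [hb2]
  · ext i
    rw [S_of_isRepl hb4 i, mem_insert_iff, mem_sdiff, mem_singleton_iff, Fin.ext_iff, Fin.ext_iff]

/-- The matroid whose bases have the masks in `L`. -/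
def matOf (n : ℕ) (p : ℕ → Bool) (L : List ℕ) (hne : L ≠ []) (h : exchB n p L = true)
    (hp : ∀ m, p m = true → m ∈ L) : Matroid (Fin n) :=
  Matroid.ofIsBaseOfFinite (E := univ) finite_univ (fun B : Set (Fin n) => ∃ m ∈ L, B = S n m)
    (by
      obtain ⟨m, hm⟩ := List.exists_mem_of_ne_nil L hne
      exact ⟨_, m, hm, rfl⟩)
    (exch_of h hp) (fun _ _ => subset_univ _)

theorem matOf_isBase {n : ℕ} {p : ℕ → Bool} {L : List ℕ} {hne : L ≠ []} {h : exchB n p L = true}
    {hp : ∀ m, p m = true → m ∈ L} {B : Set (Fin n)} :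
    (matOf n p L hne h hp).IsBase B ↔ ∃ m ∈ L, B = S n m := Iff.rfl

theorem matOf_E {n : ℕ} {p : ℕ → Bool} {L : List ℕ} {hne : L ≠ []} {h : exchB n p L = true}
    {hp : ∀ m, p m = true → m ∈ L} : (matOf n p L hne h hp).E = univ := rfl

theorem connected_of {n : ℕ} {p : ℕ → Bool} {L : List ℕ} {hne : L ≠ []} {h : exchB n p L = true}
    {hp : ∀ m, p m = true → m ∈ L} (hc : connB n p L = true) :
    Connected (matOf n p L hne h hp) := by
  intro M₁ M₂ hd h1 h2 heq
  obtain ⟨x, hx⟩ := h1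
  obtain ⟨y, hy⟩ := h2
  have hxy : x ≠ y := fun e => Set.disjoint_left.mp hd hx (e ▸ hy)
  unfold connB at hc
  rw [List.all_eq_true] at hc
  have h3 := hc x (List.mem_range.mpr x.2)
  rw [List.all_eq_true] at h3
  have h4 := h3 y (List.mem_range.mpr y.2)
  have hne' : ((x : ℕ) == (y : ℕ)) = false := by
    rw [beq_eq_false_iff_ne]
    intro e
    exact hxy (Fin.ext e)
  rw [hne', Bool.false_or, List.any_eq_true] at h4
  obtain ⟨m, hm, h5⟩ := h4
  rw [Bool.and_eq_true, Bool.and_eq_true, Bool.and_eq_true] at h5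
  obtain ⟨⟨hmx, hmy⟩, hr1, hr2⟩ := h5
  have hB : (matOf n p L hne h hp).IsBase (S n m) := ⟨m, hm, rfl⟩
  have hB' : (matOf n p L hne h hp).IsBase (S n (m - 2 ^ (x : ℕ) + 2 ^ (y : ℕ))) :=
    ⟨_, hp _ hr1, rfl⟩
  rw [heq, Matroid.disjointSum_isBase_iff] at hB hB'
  have hxm : x ∈ S n m := hmx
  have hsub : S n (m - 2 ^ (x : ℕ) + 2 ^ (y : ℕ)) ∩ M₁.E ⊆ S n m ∩ M₁.E := by
    rintro i ⟨hi, hiE⟩
    rw [S_of_isRepl hr2 i] at hi
    rcases hi with hi | hi
    · have : i = y := Fin.ext hi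
      exact absurd (this ▸ hiE) (fun h' => Set.disjoint_left.mp hd h' hy)
    · exact ⟨hi.1, hiE⟩
  have heq2 := hB'.1.eq_of_subset_isBase hB.1 hsub
  have : x ∈ S n (m - 2 ^ (x : ℕ) + 2 ^ (y : ℕ)) ∩ M₁.E := by
    rw [heq2]
    exact ⟨hxm, hx⟩
  have h6 := (S_of_isRepl hr2 x).mp this.1
  rcases h6 with h6 | h6
  · exact hxy (Fin.ext h6)
  · exact h6.2 rfl

theorem vec_S {n m : ℕ} (i : Fin n) : vec (S n m) i = ((m.testBit i).toNat : ℝ) := by
  unfold vec
  by_cases h : m.testBit i = true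
  · rw [indicator_of_mem (show i ∈ S n m from h)]
    simp [h]
  · rw [indicator_of_notMem (show i ∉ S n m from h)]
    simp [h]

/-- relation between 0/1-vectors from a relation between masks -/
theorem vec_rel {n : ℕ} (m₁ m₂ m₃ m₄ : ℕ)
    (h : ∀ i : Fin n, (m₁.testBit i).toNat + (m₂.testBit i).toNat =
      (m₃.testBit i).toNat + (m₄.testBit i).toNat) :
    vec (S n m₁) + vec (S n m₂) = vec (S n m₃) + vec (S n m₄) := by
  funext i
  rw [Pi.add_apply, Pi.add_apply, vec_S, vec_S, vec_S, vec_S]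
  exact_mod_cast h i

end Pool.Agent.R567.MSub
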