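import Pool.Agent.R567.MSub.Full

set_option autoImplicit false

/-!
# A decomposable cell in every refinement of the subdivision of the nine lines
-/

namespace Pool.Agent.R567.MSub

open Set

/-- A matroid is indecomposable if its polytope has no matroid subdivision besides the trivial one,
which consists of the polytope and its faces. -/
def Indecomposable {n : ℕ} (N : Matroid (Fin n)) : Prop :=
  ∀ D, IsMatroidSubdivision N D → D = {F | IsFace (polytope N) F}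

/-- masks of the triples with at least two elements in `0123`, except `e` -/
def LE (e : ℕ) : List ℕ := (LW 15).filter fun m => m != e

/-- the pair by which the cell is split -/
def pr (e : ℕ) : ℕ := if e = 13 ∨ e = 14 then 12 else 3

def Na (e : ℕ) : List ℕ := (LE e).filter fun m => decide (cnt 9 (pr e) m ≤ 1)
def Nb (e : ℕ) : List ℕ := (LE e).filter fun m => decide (1 ≤ cnt 9 (pr e) m)

def φa (e m : ℕ) : ℕ := cnt 9 (pr e) m - 1
def φb (e m : ℕ) : ℕ := 1 - cnt 9 (pr e) m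

theorem d_ex : ∀ e ∈ [0, 7, 11, 13, 14],
    exchB 9 (fun m => (Na e).contains m) (Na e) = true ∧
    exchB 9 (fun m => (Nb e).contains m) (Nb e) = true := by decide +kernel

theorem d_ok : ∀ e ∈ [0, 7, 11, 13, 14], ∀ m ∈ LE e, 1 < cnt 9 (pr e) m → ∀ m' ∈ LE e,
    cnt 9 (pr e) m' < 1 → exOK 9 (LE e) (φa e) m m' = true ∧
      exOK 9 (LE e) (φb e) m' m = true := by decide +kernel

theorem d_ne : ∀ e ∈ [0, 7, 11, 13, 14], (∃ m ∈ LE e, 1 < cnt 9 (pr e) m) ∧
    (∃ m ∈ LE e, cnt 9 (pr e) m < 1) ∧ Na e ≠ [] ∧ Nb e ≠ [] := by decide +kernel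

theorem mem_Na {e m : ℕ} : m ∈ Na e ↔ m ∈ LE e ∧ cnt 9 (pr e) m ≤ 1 := by
  unfold Na
  rw [List.mem_filter, decide_eq_true_iff]

theorem mem_Nb {e m : ℕ} : m ∈ Nb e ↔ m ∈ LE e ∧ 1 ≤ cnt 9 (pr e) m := by
  unfold Nb
  rw [List.mem_filter, decide_eq_true_iff]

theorem cover_N {e : ℕ} (he : e ∈ [0, 7, 11, 13, 14]) (z : Fin 9 → ℝ) (hz : z ∈ PL 9 (LE e)) :
    z ∈ PL 9 (Na e) ∨ ∃ _i : Unit, z ∈ PL 9 (Nb e) := by
  by_cases h : gK 9 (pr e) z ≤ 1
  · left
    have h1 := rep (LE e) (φa e) z hz (by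
      intro m hm hφ
      have hcnt : 1 < cnt 9 (pr e) m := by
        unfold φa at hφ
        omega
      refine ⟨gK 9 (pr e), 1, h, ?_, ?_⟩
      · rw [gK_vec]
        exact_mod_cast hcnt
      · intro m' hm' hlt
        rw [gK_vec] at hlt
        exact exOK_spec (d_ok e he m hm hcnt m' hm' (by exact_mod_cast hlt)).1)
    refine convexHull_mono ?_ h1
    rintro _ ⟨m, hm, hφ, rfl⟩
    refine ⟨m, mem_Na.mpr ⟨hm, ?_⟩, rfl⟩
    unfold φa at hφ
    omega
  · right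
    refine ⟨(), ?_⟩
    push Not at h
    have h1 := rep (LE e) (φb e) z hz (by
      intro m hm hφ
      have hcnt : cnt 9 (pr e) m < 1 := by
        unfold φb at hφ
        omega
      refine ⟨-gK 9 (pr e), -1, ?_, ?_, ?_⟩
      · rw [LinearMap.neg_apply]
        linarith
      · rw [LinearMap.neg_apply, gK_vec]
        have : (cnt 9 (pr e) m : ℝ) < 1 := by exact_mod_cast hcnt
        linarith
      · intro m' hm' hlt'
        rw [LinearMap.neg_apply, gK_vec] at hlt'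
        have : (1 : ℝ) < cnt 9 (pr e) m' := by linarith
        exact exOK_spec (d_ok e he m' hm' (by exact_mod_cast this) m hm hcnt).2)
    refine convexHull_mono ?_ h1
    rintro _ ⟨m, hm, hφ, rfl⟩
    refine ⟨m, mem_Nb.mpr ⟨hm, ?_⟩, rfl⟩
    unfold φb at hφ
    omega

theorem split {e : ℕ} (he : e ∈ [0, 7, 11, 13, 14]) {N : Matroid (Fin 9)}
    (hN : ∀ B, N.IsBase B ↔ ∃ m ∈ LE e, B = S 9 m) :
    IsMatroidSubdivision N
      ({F | IsFace (PL 9 (Na e)) F} ∪ ⋃ _i : Unit, {F | IsFace (PL 9 (Nb e)) F}) := by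
  refine subdivision_of_glue (L := LE e) hN (ι := Unit) (Na e) (fun _ => Nb e)
    (fun _ => gK 9 (pr e)) (fun _ => 1) (fun m hm => (mem_Na.mp hm).1)
    (fun _ m hm => (mem_Nb.mp hm).1) (cover_N he) ?_ ?_ ?_ ?_ ?_ ?_
  · intro _ m hm
    rw [gK_vec]
    exact_mod_cast (mem_Na.mp hm).2
  · intro _ m hm
    rw [gK_vec]
    exact_mod_cast (mem_Nb.mp hm).2
  · intro _ m
    rw [gK_vec, mem_Na, mem_Nb]
    constructor
    · rintro ⟨h1, h2⟩
      have h3 : cnt 9 (pr e) m = 1 := by exact_mod_cast h2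
      exact ⟨⟨h1.1, h3.ge⟩, h2⟩
    · rintro ⟨h1, h2⟩
      have h3 : cnt 9 (pr e) m = 1 := by exact_mod_cast h2
      exact ⟨⟨h1.1, h3.le⟩, h2⟩
  · intro i j hne
    exact absurd (Subsingleton.elim i j) hne
  · exact exists_matroid_PL (fun m => (Na e).contains m) (d_ne e he).2.2.1 (d_ex e he).1
      (fun m hm => by simpa using hm)
  · intro _
    exact exists_matroid_PL (fun m => (Nb e).contains m) (d_ne e he).2.2.2 (d_ex e he).2
      (fun m hm => by simpa using hm)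

theorem decomposable {e : ℕ} (he : e ∈ [0, 7, 11, 13, 14]) {N : Matroid (Fin 9)}
    (hN : ∀ B, N.IsBase B ↔ ∃ m ∈ LE e, B = S 9 m) : ¬ Indecomposable N := by
  intro h
  have h1 := h _ (split he hN)
  have h2 : polytope N ∈ {F | IsFace (polytope N) F} := IsFace.refl' (convex_polytope N)
  rw [← h1] at h2
  obtain ⟨⟨m, hm, hc⟩, ⟨m', hm', hc'⟩, -, -⟩ := d_ne e he
  have hv : vec (S 9 m) ∈ polytope N := vec_mem_polytope ((hN _).mpr ⟨m, hm, rfl⟩)
  have hv' : vec (S 9 m') ∈ polytope N := vec_mem_polytope ((hN _).mpr ⟨m', hm', rfl⟩)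
  rcases h2 with h2 | h2
  · have h3 : vec (S 9 m) ∈ PL 9 (Na e) := h2.2.subset hv
    have h4 : gK 9 (pr e) (vec (S 9 m)) ≤ 1 := by
      refine PL_le _ _ (fun k hk => ?_) h3
      rw [gK_vec]
      exact_mod_cast (mem_Na.mp hk).2
    rw [gK_vec] at h4
    have h5 : cnt 9 (pr e) m ≤ 1 := by exact_mod_cast h4
    omega
  · obtain ⟨_, h2⟩ := mem_iUnion.mp h2
    have h3 : vec (S 9 m') ∈ PL 9 (Nb e) := h2.2.subset hv'
    have h4 : 1 ≤ gK 9 (pr e) (vec (S 9 m')) := by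
      refine PL_ge _ _ (fun k hk => ?_) h3
      rw [gK_vec]
      exact_mod_cast (mem_Nb.mp hk).2
    rw [gK_vec] at h4
    have h5 : 1 ≤ cnt 9 (pr e) m' := by exact_mod_cast h4
    omega

/-! ### the neighbour -/

theorem n_chk : ∀ x ∈ [(7, 25, [11, 13]), (7, 26, [11, 14]), (7, 28, [13, 14]),
    (11, 21, [7, 13]), (11, 22, [7, 14]), (11, 28, [13, 14]), (13, 19, [7, 11]),
    (13, 22, [7, 14]), (13, 26, [11, 14]), (14, 19, [7, 11]), (14, 21, [7, 13]),
    (14, 25, [11, 13])], forcedR 9 (LW 15) x.2.1 x.1 x.2.2 = true ∧ x.2.1 ∈ GI 15 := by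
  decide +kernel

theorem LW_split : ∀ m ∈ LW 15, m ∈ GI 15 ∨ (m = 7 ∨ m = 11 ∨ m = 13 ∨ m = 14) ∧
    cnt 9 15 m = 3 := by decide +kernel

theorem GI_sub : ∀ m ∈ GI 15, m ∈ LW 15 ∧ cnt 9 15 m = 2 ∧ m ≠ 7 ∧ m ≠ 11 ∧ m ≠ 13 ∧ m ≠ 14 ∧
    m ≠ 0 := by decide +kernel

theorem LW_mem : 7 ∈ LW 15 ∧ 11 ∈ LW 15 ∧ 13 ∈ LW 15 ∧ 14 ∈ LW 15 ∧ ∀ m ∈ LW 15, m < 2 ^ 9 ∧
    m ≠ 0 := by decide +kernel

theorem logic4 {a b c d : Prop} (h : a ∨ b ∨ c ∨ d)
    (ha : a → (b ∨ c) ∧ (b ∨ d) ∧ (c ∨ d)) (hb : b → (a ∨ c) ∧ (a ∨ d) ∧ (c ∨ d))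
    (hc : c → (a ∨ b) ∧ (a ∨ d) ∧ (b ∨ d)) (hd : d → (a ∨ b) ∧ (a ∨ c) ∧ (b ∨ c)) :
    (a ∧ b ∧ c ∧ d) ∨ (¬ a ∧ b ∧ c ∧ d) ∨ (a ∧ ¬ b ∧ c ∧ d) ∨ (a ∧ b ∧ ¬ c ∧ d) ∨
      (a ∧ b ∧ c ∧ ¬ d) := by
  by_cases h1 : a <;> by_cases h2 : b <;> by_cases h3 : c <;> by_cases h4 : d <;>
    simp_all

theorem exists_cell {C : Set (Set (Fin 9 → ℝ))} (hC : IsMatroidSubdivision U9 C)
    (href : Refines C Sig0) : ∃ N : Matroid (Fin 9), N.E = univ ∧ IsCell C (polytope N) ∧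
      ¬ Indecomposable N := by
  obtain ⟨TA, hA⟩ := exists_dat_I hC href (l := lA) (by decide) (by decide) (K := 15)
    (by decide) (by decide)
  have hfull := face_full hC href hA
  have hpU : avg 9 lA ∈ polytope U9 := by
    rw [← hC.union]
    exact ⟨TA, hA.car.1, hA.car.2.1⟩
  have hvU : vec (S 9 7) ∈ polytope U9 := vec_mem_polytope (U9_isBase.mpr ⟨7, by decide, rfl⟩)
  obtain ⟨Q, hQ, hpQ, t, ht, -, htQ⟩ :=
    exists_cell_near hC.isComplex hC.union (convex_polytope U9) hpU hvU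
  have hTQ : TA ⊆ Q := hA.car.2.2 Q hQ.1 hpQ
  obtain ⟨N, hNE, rfl⟩ := hC.cells Q hQ
  have hg2 : gK 9 15 (avg 9 lA) = 2 := by
    rw [gK_avg]
    have h1 : (lA.map (cnt 9 15)).sum = 20 := by decide
    have h2 : lA.length = 10 := by decide
    rw [h1, h2]
    norm_num
  have hg3 : gK 9 15 (vec (S 9 7)) = 3 := by
    rw [gK_vec]
    have h1 : cnt 9 15 7 = 3 := by decide
    rw [h1]
    norm_num
  have hgt : ((2 : ℕ) : ℝ) < gK 9 15 (avg 9 lA + t • (vec (S 9 7) - avg 9 lA)) := by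
    rw [map_add, map_smul, map_sub, hg2, hg3, smul_eq_mul]
    push_cast
    linarith
  have hside : ∀ z ∈ polytope N, 2 ≤ gK 9 15 z := by
    rcases sided href hQ.1 (K := 15) (by decide) with h | h
    · have h1 := h _ htQ
      push_cast at hgt
      linarith
    · exact h
  have hgood : GoodFor 9 (polytope N) (LW 15) := by
    intro s hs hv
    refine mem_LW.mpr ⟨mem_U hC hQ.1 hs hv, ?_⟩
    have h1 := hside _ hv
    rw [gK_vec] at h1
    exact_mod_cast h1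
  have hface : IsFace (polytope N) (polytope N) := IsFace.refl' (convex_polytope N)
  -- presence of the triples in the line
  have hF : ∀ t m' R, (t, m', R) ∈ [(7, 25, [11, 13]), (7, 26, [11, 14]), (7, 28, [13, 14]),
      (11, 21, [7, 13]), (11, 22, [7, 14]), (11, 28, [13, 14]), (13, 19, [7, 11]),
      (13, 22, [7, 14]), (13, 26, [11, 14]), (14, 19, [7, 11]), (14, 21, [7, 13]),
      (14, 25, [11, 13])] → vec (S 9 t) ∈ polytope N → ∃ r ∈ R, vec (S 9 r) ∈ polytope N := by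
    intro t m' R hx ht
    obtain ⟨h1, h2⟩ := n_chk (t, m', R) hx
    exact forced_spec hface hgood h1 (hTQ (hfull m' h2)) ht
  have hF2 : ∀ t m' a b, (t, m', [a, b]) ∈ [(7, 25, [11, 13]), (7, 26, [11, 14]),
      (7, 28, [13, 14]), (11, 21, [7, 13]), (11, 22, [7, 14]), (11, 28, [13, 14]),
      (13, 19, [7, 11]), (13, 22, [7, 14]), (13, 26, [11, 14]), (14, 19, [7, 11]),
      (14, 21, [7, 13]), (14, 25, [11, 13])] → vec (S 9 t) ∈ polytope N →
      vec (S 9 a) ∈ polytope N ∨ vec (S 9 b) ∈ polytope N := by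
    intro t m' a b hx ht
    obtain ⟨r, hr, hrN⟩ := hF t m' [a, b] hx ht
    have : r = a ∨ r = b := by simpa using hr
    rcases this with rfl | rfl
    · exact Or.inl hrN
    · exact Or.inr hrN
  have hone : vec (S 9 7) ∈ polytope N ∨ vec (S 9 11) ∈ polytope N ∨
      vec (S 9 13) ∈ polytope N ∨ vec (S 9 14) ∈ polytope N := by
    obtain ⟨m, hm, hmN, hc⟩ := exists_gt hface hgood htQ hgt
    rcases LW_split m hm with h | ⟨h | h | h | h, -⟩
    · have := (GI_sub m h).2.1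
      omega
    · exact Or.inl (h ▸ hmN)
    · exact Or.inr (Or.inl (h ▸ hmN))
    · exact Or.inr (Or.inr (Or.inl (h ▸ hmN)))
    · exact Or.inr (Or.inr (Or.inr (h ▸ hmN)))
  have h4 := logic4 hone
    (fun h => ⟨hF2 7 25 11 13 (by decide) h, hF2 7 26 11 14 (by decide) h,
      hF2 7 28 13 14 (by decide) h⟩)
    (fun h => ⟨hF2 11 21 7 13 (by decide) h, hF2 11 22 7 14 (by decide) h,
      hF2 11 28 13 14 (by decide) h⟩)
    (fun h => ⟨hF2 13 19 7 11 (by decide) h, hF2 13 22 7 14 (by decide) h,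
      hF2 13 26 11 14 (by decide) h⟩)
    (fun h => ⟨hF2 14 19 7 11 (by decide) h, hF2 14 21 7 13 (by decide) h,
      hF2 14 25 11 13 (by decide) h⟩)
  have hgi : ∀ m ∈ GI 15, vec (S 9 m) ∈ polytope N := fun m hm => hTQ (hfull m hm)
  -- the list of bases
  have key : ∃ e ∈ [0, 7, 11, 13, 14], ∀ m ∈ LW 15, vec (S 9 m) ∈ polytope N ↔ m ≠ e := by
    rcases h4 with ⟨ha, hb, hc, hd⟩ | ⟨ha, hb, hc, hd⟩ | ⟨ha, hb, hc, hd⟩ | ⟨ha, hb, hc, hd⟩ |
      ⟨ha, hb, hc, hd⟩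
    · refine ⟨0, by decide, fun m hm => ?_⟩
      rcases LW_split m hm with h | ⟨rfl | rfl | rfl | rfl, -⟩
      · exact ⟨fun _ => (GI_sub m h).2.2.2.2.2.2, fun _ => hgi m h⟩
      · exact ⟨fun _ => by decide, fun _ => ha⟩
      · exact ⟨fun _ => by decide, fun _ => hb⟩
      · exact ⟨fun _ => by decide, fun _ => hc⟩
      · exact ⟨fun _ => by decide, fun _ => hd⟩
    · refine ⟨7, by decide, fun m hm => ?_⟩
      rcases LW_split m hm with h | ⟨rfl | rfl | rfl | rfl, -⟩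
      · exact ⟨fun _ => (GI_sub m h).2.2.1, fun _ => hgi m h⟩
      · exact ⟨fun h => absurd h ha, fun h => absurd rfl h⟩
      · exact ⟨fun _ => by decide, fun _ => hb⟩
      · exact ⟨fun _ => by decide, fun _ => hc⟩
      · exact ⟨fun _ => by decide, fun _ => hd⟩
    · refine ⟨11, by decide, fun m hm => ?_⟩
      rcases LW_split m hm with h | ⟨rfl | rfl | rfl | rfl, -⟩
      · exact ⟨fun _ => (GI_sub m h).2.2.2.1, fun _ => hgi m h⟩
      · exact ⟨fun _ => by decide, fun _ => ha⟩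
      · exact ⟨fun h => absurd h hb, fun h => absurd rfl h⟩
      · exact ⟨fun _ => by decide, fun _ => hc⟩
      · exact ⟨fun _ => by decide, fun _ => hd⟩
    · refine ⟨13, by decide, fun m hm => ?_⟩
      rcases LW_split m hm with h | ⟨rfl | rfl | rfl | rfl, -⟩
      · exact ⟨fun _ => (GI_sub m h).2.2.2.2.1, fun _ => hgi m h⟩
      · exact ⟨fun _ => by decide, fun _ => ha⟩
      · exact ⟨fun _ => by decide, fun _ => hb⟩
      · exact ⟨fun h => absurd h hc, fun h => absurd rfl h⟩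
      · exact ⟨fun _ => by decide, fun _ => hd⟩
    · refine ⟨14, by decide, fun m hm => ?_⟩
      rcases LW_split m hm with h | ⟨rfl | rfl | rfl | rfl, -⟩
      · exact ⟨fun _ => (GI_sub m h).2.2.2.2.2.1, fun _ => hgi m h⟩
      · exact ⟨fun _ => by decide, fun _ => ha⟩
      · exact ⟨fun _ => by decide, fun _ => hb⟩
      · exact ⟨fun _ => by decide, fun _ => hc⟩
      · exact ⟨fun h => absurd h hd, fun h => absurd rfl h⟩
  obtain ⟨e, he, hkey⟩ := key
  refine ⟨N, hNE, hQ, decomposable he fun B => ?_⟩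
  constructor
  · intro hB
    obtain ⟨m, hm, rfl⟩ := exists_maskOf B
    have hv := vec_mem_polytope hB
    have hmL := hgood m hm hv
    refine ⟨m, ?_, rfl⟩
    unfold LE
    rw [List.mem_filter, bne_iff_ne]
    exact ⟨hmL, (hkey m hmL).mp hv⟩
  · rintro ⟨m, hm, rfl⟩
    unfold LE at hm
    rw [List.mem_filter, bne_iff_ne] at hm
    exact isBase_of_vec_mem ((hkey m hm.1).mpr hm.2)

/-- **Theorem.** The hypersimplex `Δ(3, 9)` has a finest matroid subdivision with a maximal cell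
`P_N` whose matroid `N` is not indecomposable. -/
theorem finest_decomposable : ∃ U : Matroid (Fin 9), (∀ B, U.IsBase B ↔ B.ncard = 3) ∧
    ∃ C, IsFinest U C ∧ ∃ N : Matroid (Fin 9), N.E = univ ∧ IsCell C (polytope N) ∧
      ¬ Indecomposable N := by
  obtain ⟨C, hC, href⟩ := exists_finest sig0_subdivision
  exact ⟨U9, fun B => U9_ncard, C, hC, exists_cell hC.1 href⟩

end Pool.Agent.R567.MSub
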