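import Pool.Agent.R567.MSub.Faces

set_option autoImplicit false

/-!
# Refinements of polytopal complexes, carriers and finest matroid subdivisions
-/

namespace Pool.Agent.R567.MSub

open Set

variable {n : ℕ}

/-- `C'` refines `C`: every member of `C'` lies in a member of `C`. -/
def Refines (C' C : Set (Set (Fin n → ℝ))) : Prop := ∀ Q ∈ C', ∃ R ∈ C, Q ⊆ R

/-- A matroid subdivision is finest if no other matroid subdivision of the same polytope
refines it. -/
def IsFinest (M : Matroid (Fin n)) (C : Set (Set (Fin n → ℝ))) : Prop :=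
  IsMatroidSubdivision M C ∧ ∀ C', IsMatroidSubdivision M C' → Refines C' C → C' = C

theorem Refines.refl (C : Set (Set (Fin n → ℝ))) : Refines C C := fun Q hQ => ⟨Q, hQ, subset_rfl⟩

theorem Refines.trans {A B C : Set (Set (Fin n → ℝ))} (h : Refines A B) (h' : Refines B C) :
    Refines A C := by
  intro Q hQ
  obtain ⟨R, hR, hQR⟩ := h Q hQ
  obtain ⟨T, hT, hRT⟩ := h' R hR
  exact ⟨T, hT, hQR.trans hRT⟩

/-- `T` is the smallest member of `C` containing `q`. -/
def IsCarrier (C : Set (Set (Fin n → ℝ))) (q : Fin n → ℝ) (T : Set (Fin n → ℝ)) : Prop :=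
  T ∈ C ∧ q ∈ T ∧ ∀ R ∈ C, q ∈ R → T ⊆ R

theorem IsPolytopalComplex.convex {C : Set (Set (Fin n → ℝ))} (hC : IsPolytopalComplex C)
    {Q : Set (Fin n → ℝ)} (hQ : Q ∈ C) : Convex ℝ Q := by
  obtain ⟨S, -, rfl⟩ := hC.polytope Q hQ
  exact convex_convexHull ℝ S

theorem exists_carrier {C : Set (Set (Fin n → ℝ))} (hC : IsPolytopalComplex C)
    {Q : Set (Fin n → ℝ)} (hQ : Q ∈ C) {q : Fin n → ℝ} (hq : q ∈ Q) :
    ∃ T, IsCarrier C q T := by
  have hfin : {R | R ∈ C ∧ q ∈ R}.Finite := hC.finite.subset fun R hR => hR.1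
  obtain ⟨T, -, hT⟩ := hfin.exists_le_minimal (a := Q) ⟨hQ, hq⟩
  refine ⟨T, hT.prop.1, hT.prop.2, fun R hR hqR => ?_⟩
  have h1 := (hC.inter T hT.prop.1 R hR).1
  have h2 : T ∩ R ∈ C := hC.face T hT.prop.1 _ h1
  have h3 := hT.le_of_le (y := T ∩ R) ⟨h2, hT.prop.2, hqR⟩ inter_subset_left
  exact h3.trans inter_subset_right

/-- the carrier contains `q` in its relative interior -/
theorem IsCarrier.relint {C : Set (Set (Fin n → ℝ))} (hC : IsPolytopalComplex C)
    {q : Fin n → ℝ} {T : Set (Fin n → ℝ)} (hT : IsCarrier C q T) {z : Fin n → ℝ} (hz : z ∈ T) :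
    ∃ ε : ℝ, 0 < ε ∧ q + ε • (q - z) ∈ T := by
  have hconv : Convex ℝ T := hC.convex hT.1
  set G : Set (Fin n → ℝ) := {z | z ∈ T ∧ ∃ ε : ℝ, 0 < ε ∧ q + ε • (q - z) ∈ T} with hG
  -- the number may be decreased
  have hdec : ∀ (z : Fin n → ℝ) (ε δ : ℝ), 0 < δ → δ ≤ ε → q + ε • (q - z) ∈ T →
      q + δ • (q - z) ∈ T := by
    intro z ε δ hδ hle h
    have hε : 0 < ε := lt_of_lt_of_le hδ hle
    have h1 : 0 ≤ 1 - δ / ε := by
      rw [sub_nonneg, div_le_one hε]
      exact hle
    have := hconv hT.2.1 h (a := 1 - δ / ε) (b := δ / ε) h1 (by positivity) (by ring)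
    convert this using 1
    funext i
    simp only [Pi.add_apply, Pi.smul_apply, Pi.sub_apply, smul_eq_mul]
    field_simp
    ring
  have hface : IsFace T G := by
    refine ⟨?_, fun z hz => hz.1, ?_⟩
    · rintro x ⟨hx, ε, hε, hxε⟩ y ⟨hy, δ, hδ, hyδ⟩ a b ha hb hab
      refine ⟨hconv hx hy ha hb hab, min ε δ, lt_min hε hδ, ?_⟩
      have h1 := hdec x ε (min ε δ) (lt_min hε hδ) (min_le_left _ _) hxε
      have h2 := hdec y δ (min ε δ) (lt_min hε hδ) (min_le_right _ _) hyδ
      have := hconv h1 h2 ha hb hab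
      convert this using 1
      funext i
      simp only [Pi.add_apply, Pi.smul_apply, Pi.sub_apply, smul_eq_mul]
      have : a = 1 - b := by linarith
      rw [this]
      ring
    · rintro x hx y hy z ⟨hz, ε, hε, hzε⟩ ⟨a, b, ha, hb, hab, rfl⟩
      refine ⟨hx, ε * a / (1 + ε * b), by positivity, ?_⟩
      have hpos : 0 < 1 + ε * b := by positivity
      have := hconv hzε hy (a := 1 / (1 + ε * b)) (b := ε * b / (1 + ε * b)) (by positivity)
        (by positivity) (by field_simp)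
      convert this using 1
      funext i
      simp only [Pi.add_apply, Pi.smul_apply, Pi.sub_apply, smul_eq_mul]
      have : a = 1 - b := by linarith
      rw [this]
      field_simp
      ring
  have hGC : G ∈ C := hC.face T hT.1 G hface
  have hqG : q ∈ G := ⟨hT.2.1, 1, one_pos, by simpa using hT.2.1⟩
  exact (hT.2.2 G hGC hqG hz).2

/-- a nonempty member of the complex is the carrier of some point -/
theorem exists_point {C : Set (Set (Fin n → ℝ))} (hC : IsPolytopalComplex C)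
    {Q : Set (Fin n → ℝ)} (hQ : Q ∈ C) (hne : Q.Nonempty) : ∃ q, IsCarrier C q Q := by
  obtain ⟨S, hS, hQS⟩ := hC.polytope Q hQ
  have hSne : S.Nonempty := by
    rw [← convexHull_nonempty_iff (𝕜 := ℝ), ← hQS]
    exact hne
  obtain ⟨s, rfl⟩ := hS.exists_finset_coe
  have hsne : s.Nonempty := by simpa using hSne
  have hcard : (0 : ℝ) < s.card := by exact_mod_cast hsne.card_pos
  set q : Fin n → ℝ := ∑ i : s, (1 / (s.card : ℝ)) • (i : Fin n → ℝ) with hq
  have hw1 : ∑ _i : s, (1 / (s.card : ℝ)) = 1 := by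
    rw [Finset.sum_const, Finset.card_univ, Fintype.card_coe, nsmul_eq_mul]
    field_simp
  have hqQ : q ∈ Q := by
    rw [hQS, hq]
    exact (convex_convexHull ℝ _).sum_mem (fun _ _ => by positivity) hw1
      (fun i _ => subset_convexHull ℝ _ (by exact_mod_cast i.2))
  refine ⟨q, hQ, hqQ, fun R hR hqR => ?_⟩
  have hf : IsFace Q (Q ∩ R) := (hC.inter Q hQ R hR).1
  have h1 : ∀ i : s, (i : Fin n → ℝ) ∈ Q ∩ R := by
    intro i
    refine face_support (hC.convex hQ) hf (fun i : s => (i : Fin n → ℝ))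
      (fun _ => 1 / (s.card : ℝ)) (fun i => ?_) (fun _ => by positivity) hw1 ⟨hqQ, hqR⟩ i
      (by positivity)
    rw [hQS]
    exact subset_convexHull ℝ _ (by exact_mod_cast i.2)
  rw [hQS]
  refine convexHull_min (fun x hx => (h1 ⟨x, by exact_mod_cast hx⟩).2) (hC.convex hR)

theorem IsCarrier.unique {C : Set (Set (Fin n → ℝ))} {q : Fin n → ℝ} {T T' : Set (Fin n → ℝ)}
    (h : IsCarrier C q T) (h' : IsCarrier C q T') : T = T' :=
  subset_antisymm (h.2.2 T' h'.1 h'.2.1) (h'.2.2 T h.1 h.2.1)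

/-- carriers get smaller in a refinement -/
theorem IsCarrier.mono {C C' : Set (Set (Fin n → ℝ))} (hC : IsPolytopalComplex C)
    (hC' : IsPolytopalComplex C') (href : Refines C C') {q : Fin n → ℝ} {T T' : Set (Fin n → ℝ)}
    (h : IsCarrier C q T) (h' : IsCarrier C' q T') : T ⊆ T' := by
  obtain ⟨R, hR, hTR⟩ := href T h.1
  have hqR : q ∈ R := hTR h.2.1
  have hT'R : T' ⊆ R := h'.2.2 R hR hqR
  have hf : IsFace R (R ∩ T') := (hC'.inter R hR T' h'.1).1
  intro z hz
  obtain ⟨ε, hε, hw⟩ := h.relint hC hz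
  have hq : q ∈ openSegment ℝ z (q + ε • (q - z)) := by
    refine ⟨ε / (1 + ε), 1 / (1 + ε), by positivity, by positivity, by field_simp; ring, ?_⟩
    funext i
    simp only [Pi.add_apply, Pi.smul_apply, Pi.sub_apply, smul_eq_mul]
    field_simp
    ring
  exact (hf.2.left_mem_of_mem_openSegment (hTR hz) (hTR hw) ⟨hqR, h'.2.1⟩ hq).2

theorem refines_antisymm_aux {C C' : Set (Set (Fin n → ℝ))} (hC : IsPolytopalComplex C)
    (hC' : IsPolytopalComplex C') (h : Refines C C') (h' : Refines C' C) : C ⊆ C' := by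
  intro Q hQ
  rcases Q.eq_empty_or_nonempty with rfl | hne
  · obtain ⟨R, hR, -⟩ := h ∅ hQ
    exact hC'.face R hR ∅ ⟨convex_empty, empty_subset _, fun x _ y _ z hz _ => absurd hz (by simp)⟩
  · obtain ⟨q, hq⟩ := exists_point hC hQ hne
    obtain ⟨R, hR, hQR⟩ := h Q hQ
    obtain ⟨T, hT⟩ := exists_carrier hC' hR (hQR hq.2.1)
    have h1 := hq.mono hC hC' h hT
    have h2 := hT.mono hC' hC h' hq
    rw [subset_antisymm h1 h2]
    exact hT.1

theorem refines_antisymm {C C' : Set (Set (Fin n → ℝ))} (hC : IsPolytopalComplex C)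
    (hC' : IsPolytopalComplex C') (h : Refines C C') (h' : Refines C' C) : C = C' :=
  subset_antisymm (refines_antisymm_aux hC hC' h h') (refines_antisymm_aux hC' hC h' h)

/-- every member of a matroid subdivision is a face of a cell, which is a matroid polytope -/
theorem member {M : Matroid (Fin n)} {C : Set (Set (Fin n → ℝ))} (hC : IsMatroidSubdivision M C)
    {Q : Set (Fin n → ℝ)} (hQ : Q ∈ C) :
    ∃ N : Matroid (Fin n), N.E = univ ∧ polytope N ∈ C ∧ IsFace (polytope N) Q := by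
  obtain ⟨R, hR, hQR⟩ := exists_cell_of_mem hC.isComplex hQ
  obtain ⟨N, hN, rfl⟩ := hC.cells R hR
  refine ⟨N, hN, hR.1, ?_⟩
  have := (hC.isComplex.inter (polytope N) hR.1 Q hQ).1
  rwa [inter_eq_self_of_subset_right hQR] at this

theorem finite_subdivisions (M : Matroid (Fin n)) : {C | IsMatroidSubdivision M C}.Finite := by
  have h1 : (range fun S : Set (Set (Fin n)) => convexHull ℝ (vec '' S)).Finite :=
    finite_range _
  refine h1.finite_subsets.subset ?_
  intro C hC Q hQ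
  obtain ⟨N, -, -, hf⟩ := member hC hQ
  refine ⟨{B | N.IsBase B ∧ vec B ∈ Q}, ?_⟩
  refine Eq.trans ?_ (face_eq_convexHull hf).symm
  dsimp only
  congr 1
  ext x
  constructor
  · rintro ⟨B, ⟨hB, hBQ⟩, rfl⟩
    exact ⟨⟨B, hB, rfl⟩, hBQ⟩
  · rintro ⟨⟨B, hB, rfl⟩, hx⟩
    exact ⟨B, ⟨hB, hx⟩, rfl⟩

/-- every matroid subdivision is refined by a finest one -/
theorem exists_finest {M : Matroid (Fin n)} {C : Set (Set (Fin n → ℝ))}
    (hC : IsMatroidSubdivision M C) : ∃ D, IsFinest M D ∧ Refines D C := by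
  classical
  have hfin : Finite {D | IsMatroidSubdivision M D} := (finite_subdivisions M).to_subtype
  let r : {D | IsMatroidSubdivision M D} → {D | IsMatroidSubdivision M D} → Prop :=
    fun A B => Refines A.1 B.1 ∧ ¬ Refines B.1 A.1
  have : IsTrans _ r := ⟨fun A B D h h' => ⟨h.1.trans h'.1, fun h2 => h'.2 (h2.trans h.1)⟩⟩
  have : Std.Irrefl r := ⟨fun A h => h.2 h.1⟩
  have hwf : WellFounded r := Finite.wellFounded_of_trans_of_irrefl r
  obtain ⟨D, hD, hmin⟩ := hwf.has_min {D | Refines D.1 C} ⟨⟨C, hC⟩, Refines.refl C⟩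
  refine ⟨D.1, ⟨D.2, fun C' hC' href => ?_⟩, hD⟩
  have h1 := hmin ⟨C', hC'⟩ (href.trans hD)
  have h2 : Refines D.1 C' := by
    by_contra hcon
    exact h1 ⟨href, hcon⟩
  exact refines_antisymm hC'.isComplex D.2.isComplex href h2

end Pool.Agent.R567.MSub
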