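import Pool.Agent.R567.MSub.Faces

set_option autoImplicit false

/-!
# Removing unwanted points from convex combinations by exchanges
-/

namespace Pool.Agent.R567.MSub

open Set

variable {n : ℕ}

/-- The convex hull of the 0/1-vectors with masks in the list `L`. -/
noncomputable def PL (n : ℕ) (L : List ℕ) : Set (Fin n → ℝ) :=
  convexHull ℝ {x | ∃ m ∈ L, x = vec (S n m)}

theorem finite_vecs (n : ℕ) (L : List ℕ) :
    {x : Fin n → ℝ | ∃ m ∈ L, x = vec (S n m)}.Finite := by
  have : {x : Fin n → ℝ | ∃ m ∈ L, x = vec (S n m)} = (fun m => vec (S n m)) '' {m | m ∈ L} := by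
    ext x
    constructor
    · rintro ⟨m, hm, rfl⟩
      exact ⟨m, hm, rfl⟩
    · rintro ⟨m, hm, rfl⟩
      exact ⟨m, hm, rfl⟩
  rw [this]
  exact (List.finite_toSet L).image _

theorem vec_mem_PL {L : List ℕ} {m : ℕ} (hm : m ∈ L) : vec (S n m) ∈ PL n L :=
  subset_convexHull ℝ _ ⟨m, hm, rfl⟩

theorem convex_PL (L : List ℕ) : Convex ℝ (PL n L) := convex_convexHull ℝ _

theorem PL_mono {L L' : List ℕ} (h : ∀ m ∈ L, m ∈ L') : PL n L ⊆ PL n L' := by
  refine convexHull_mono ?_
  rintro _ ⟨m, hm, rfl⟩
  exact ⟨m, h m hm, rfl⟩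

theorem PL_min {L : List ℕ} {C : Set (Fin n → ℝ)} (hC : Convex ℝ C)
    (h : ∀ m ∈ L, vec (S n m) ∈ C) : PL n L ⊆ C := by
  refine convexHull_min ?_ hC
  rintro _ ⟨m, hm, rfl⟩
  exact h m hm

theorem polytope_eq_PL {M : Matroid (Fin n)} {L : List ℕ}
    (h : ∀ B, M.IsBase B ↔ ∃ m ∈ L, B = S n m) : polytope M = PL n L := by
  unfold polytope PL
  congr 1
  ext x
  constructor
  · rintro ⟨B, hB, rfl⟩
    obtain ⟨m, hm, rfl⟩ := (h B).mp hB
    exact ⟨m, hm, rfl⟩
  · rintro ⟨m, hm, rfl⟩
    exact ⟨S n m, (h _).mpr ⟨m, hm, rfl⟩, rfl⟩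

/-- the linear map sending weights to the combination of the vectors -/
noncomputable def comb (n : ℕ) (L : List ℕ) : (L.toFinset → ℝ) →ₗ[ℝ] (Fin n → ℝ) :=
  ∑ i : L.toFinset, (LinearMap.proj i).smulRight (vec (S n i))

theorem comb_apply (L : List ℕ) (w : L.toFinset → ℝ) :
    comb n L w = ∑ i : L.toFinset, w i • vec (S n i) := by
  unfold comb
  simp [LinearMap.sum_apply]

theorem exists_weights {L : List ℕ} {z : Fin n → ℝ} (hz : z ∈ PL n L) :
    ∃ w ∈ stdSimplex ℝ L.toFinset, comb n L w = z := by
  have h1 : Convex ℝ (comb n L '' stdSimplex ℝ L.toFinset) :=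
    (convex_stdSimplex ℝ _).linear_image _
  have h2 : PL n L ⊆ comb n L '' stdSimplex ℝ L.toFinset := by
    refine PL_min h1 fun m hm => ?_
    refine ⟨Pi.single ⟨m, List.mem_toFinset.mpr hm⟩ 1, single_mem_stdSimplex ℝ _, ?_⟩
    rw [comb_apply, Finset.sum_eq_single ⟨m, List.mem_toFinset.mpr hm⟩]
    · simp
    · intro j _ hj
      rw [Pi.single_eq_of_ne hj, zero_smul]
    · intro h
      exact absurd (Finset.mem_univ _) h
  obtain ⟨w, hw, hwz⟩ := h2 hz
  exact ⟨w, hw, hwz⟩

/-- **Exchange lemma.** If every vector with positive potential can be exchanged, together with any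
vector on the other side of a valid inequality, for two vectors of smaller total potential, then the
point is a convex combination of the vectors with potential zero. -/
theorem rep (L : List ℕ) (φ : ℕ → ℕ) (z : Fin n → ℝ) (hz : z ∈ PL n L)
    (h : ∀ m ∈ L, 0 < φ m → ∃ (g : (Fin n → ℝ) →ₗ[ℝ] ℝ) (t : ℝ), g z ≤ t ∧
      t < g (vec (S n m)) ∧ ∀ m' ∈ L, g (vec (S n m')) < t →
        ∃ r ∈ L, ∃ s ∈ L, vec (S n r) + vec (S n s) = vec (S n m) + vec (S n m') ∧
          φ r + φ s < φ m + φ m') :
    z ∈ convexHull ℝ {x | ∃ m ∈ L, φ m = 0 ∧ x = vec (S n m)} := by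
  classical
  set W : Set (L.toFinset → ℝ) := {w | w ∈ stdSimplex ℝ L.toFinset ∧ comb n L w = z} with hW
  have hWc : IsCompact W := by
    have h1 : W = stdSimplex ℝ L.toFinset ∩ {w | comb n L w = z} := by
      ext w
      simp [hW]
    rw [h1]
    refine (isCompact_stdSimplex ℝ _).inter_right ?_
    exact isClosed_eq (comb n L).continuous_of_finiteDimensional continuous_const
  have hWn : W.Nonempty := by
    obtain ⟨w, hw, hwz⟩ := exists_weights hz
    exact ⟨w, hw, hwz⟩
  set Φ : (L.toFinset → ℝ) → ℝ := fun w => ∑ i, w i * (φ i : ℝ) with hΦ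
  have hΦc : Continuous Φ := by
    rw [hΦ]
    fun_prop
  obtain ⟨w, hwW, hmin⟩ := hWc.exists_isMinOn hWn hΦc.continuousOn
  obtain ⟨⟨hw0, hw1⟩, hwz⟩ := hwW
  have hzero : ∀ i : L.toFinset, 0 < w i → φ i = 0 := by
    intro i hi
    by_contra hφ
    have hφ' : 0 < φ i := Nat.pos_of_ne_zero hφ
    have hiL : (i : ℕ) ∈ L := List.mem_toFinset.mp i.2
    obtain ⟨g, t, hgz, hgt, hex⟩ := h i hiL hφ'
    -- a vector with positive weight on the other side
    have hj : ∃ j : L.toFinset, 0 < w j ∧ g (vec (S n j)) < t := by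
      by_contra hcon
      push Not at hcon
      have h1 : g z = ∑ j, w j * g (vec (S n j)) := by
        rw [← hwz, comb_apply, map_sum]
        refine Finset.sum_congr rfl fun j _ => ?_
        rw [map_smul, smul_eq_mul]
      have h2 : t < ∑ j, w j * g (vec (S n j)) := by
        have h3 : t = ∑ j, w j * t := by
          rw [← Finset.sum_mul, hw1, one_mul]
        rw [h3]
        refine Finset.sum_lt_sum (fun j _ => ?_) ⟨i, Finset.mem_univ i, ?_⟩
        · rcases (hw0 j).eq_or_lt with h4 | h4
          · rw [← h4]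
            simp
          · exact mul_le_mul_of_nonneg_left (hcon j h4) h4.le
        · exact mul_lt_mul_of_pos_left hgt hi
      rw [← h1] at h2
      linarith
    obtain ⟨j, hj, hgj⟩ := hj
    have hjL : (j : ℕ) ∈ L := List.mem_toFinset.mp j.2
    obtain ⟨r, hr, s, hs, hrs, hφrs⟩ := hex j hjL hgj
    set r' : L.toFinset := ⟨r, List.mem_toFinset.mpr hr⟩ with hr'
    set s' : L.toFinset := ⟨s, List.mem_toFinset.mpr hs⟩ with hs'
    have hne : i ≠ j := by
      rintro rfl
      linarith
    set ε : ℝ := min (w i) (w j) with hε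
    have hεpos : 0 < ε := lt_min hi hj
    set e : L.toFinset → L.toFinset → ℝ := fun a => Pi.single a 1 with he
    set w' : L.toFinset → ℝ := w + ε • (e r' + e s' - e i - e j) with hw'
    have hval : ∀ a : L.toFinset, comb n L (e a) = vec (S n a) := by
      intro a
      rw [comb_apply, Finset.sum_eq_single a]
      · simp [he]
      · intro b _ hb
        simp only [he]
        rw [Pi.single_eq_of_ne hb, zero_smul]
      · intro h
        exact absurd (Finset.mem_univ _) h
    have hsum : ∀ a : L.toFinset, ∑ b, e a b = 1 := by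
      intro a
      simp [he]
    have hΦe : ∀ a : L.toFinset, ∑ b, e a b * (φ b : ℝ) = φ a := by
      intro a
      rw [Finset.sum_eq_single a]
      · simp [he]
      · intro b _ hb
        simp only [he]
        rw [Pi.single_eq_of_ne hb, zero_mul]
      · intro h
        exact absurd (Finset.mem_univ _) h
    have hw'W : w' ∈ W := by
      refine ⟨⟨?_, ?_⟩, ?_⟩
      · intro b
        have h1 : 0 ≤ e r' b := by
          simp only [he, Pi.single_apply]
          split_ifs <;> norm_num
        have h2 : 0 ≤ e s' b := by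
          simp only [he, Pi.single_apply]
          split_ifs <;> norm_num
        have h3 : ε * (e i b + e j b) ≤ w b := by
          by_cases hbi : b = i
          · subst hbi
            have : e j b = 0 := by
              simp only [he]
              rw [Pi.single_eq_of_ne hne]
            have h4 : e b b = 1 := by simp [he]
            rw [this, h4, add_zero, mul_one]
            exact min_le_left _ _
          · by_cases hbj : b = j
            · subst hbj
              have : e i b = 0 := by
                simp only [he]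
                rw [Pi.single_eq_of_ne hbi]
              have h4 : e b b = 1 := by simp [he]
              rw [this, h4, zero_add, mul_one]
              exact min_le_right _ _
            · have h4 : e i b = 0 := by
                simp only [he]
                rw [Pi.single_eq_of_ne hbi]
              have h5 : e j b = 0 := by
                simp only [he]
                rw [Pi.single_eq_of_ne hbj]
              rw [h4, h5, add_zero, mul_zero]
              exact hw0 b
        simp only [hw', Pi.add_apply, Pi.smul_apply, Pi.sub_apply, smul_eq_mul]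
        have h6 : 0 ≤ ε * (e r' b + e s' b) := mul_nonneg hεpos.le (add_nonneg h1 h2)
        nlinarith
      · simp only [hw', Pi.add_apply, Pi.smul_apply, Pi.sub_apply, smul_eq_mul]
        rw [Finset.sum_add_distrib, hw1, ← Finset.mul_sum, Finset.sum_sub_distrib,
          Finset.sum_sub_distrib, Finset.sum_add_distrib, hsum, hsum, hsum, hsum]
        ring
      · rw [hw', map_add, map_smul, map_sub, map_sub, map_add, hval, hval, hval, hval, hwz]
        have : vec (S n (r' : ℕ)) + vec (S n (s' : ℕ)) - vec (S n (i : ℕ)) - vec (S n (j : ℕ)) =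
            0 := by
          rw [show vec (S n (r' : ℕ)) + vec (S n (s' : ℕ)) =
            vec (S n (i : ℕ)) + vec (S n (j : ℕ)) from hrs]
          abel
        rw [this, smul_zero, add_zero]
    have h7 : Φ w' = Φ w + ε * ((φ r : ℝ) + φ s - φ i - φ j) := by
      simp only [hΦ, hw', Pi.add_apply, Pi.smul_apply, Pi.sub_apply, smul_eq_mul]
      have : ∀ b : L.toFinset, (w b + ε * (e r' b + e s' b - e i b - e j b)) * (φ b : ℝ) =
          w b * φ b + ε * (e r' b * φ b + e s' b * φ b - e i b * φ b - e j b * φ b) := by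
        intro b
        ring
      rw [Finset.sum_congr rfl fun b _ => this b, Finset.sum_add_distrib, ← Finset.mul_sum,
        Finset.sum_sub_distrib, Finset.sum_sub_distrib, Finset.sum_add_distrib, hΦe, hΦe, hΦe, hΦe]
    have h8 : Φ w ≤ Φ w' := hmin hw'W
    have h9 : ((φ r : ℝ) + φ s) < φ i + φ j := by exact_mod_cast hφrs
    have h10 : ε * ((φ r : ℝ) + φ s - φ i - φ j) < 0 := mul_neg_of_pos_of_neg hεpos (by linarith)
    linarith
  rw [← hwz, comb_apply]
  -- only the positive weights matter
  have hsplit : ∑ i : L.toFinset, w i • vec (S n i) =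
      ∑ i ∈ Finset.univ.filter (fun i : L.toFinset => 0 < w i), w i • vec (S n i) := by
    rw [Finset.sum_filter]
    refine Finset.sum_congr rfl fun i _ => ?_
    split_ifs with h1
    · rfl
    · have : w i = 0 := le_antisymm (not_lt.mp h1) (hw0 i)
      rw [this, zero_smul]
  have hsum1 : ∑ i ∈ Finset.univ.filter (fun i : L.toFinset => 0 < w i), w i = 1 := by
    rw [Finset.sum_filter, ← hw1]
    refine Finset.sum_congr rfl fun i _ => ?_
    split_ifs with h1
    · rfl
    · exact (le_antisymm (not_lt.mp h1) (hw0 i)).symm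
  rw [hsplit]
  refine (convex_convexHull ℝ _).sum_mem (fun i _ => hw0 i) hsum1 fun i hi => ?_
  refine subset_convexHull ℝ _ ⟨i, List.mem_toFinset.mp i.2, ?_, rfl⟩
  exact hzero i (Finset.mem_filter.mp hi).2

end Pool.Agent.R567.MSub
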