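import Pool.Agent.R567.MSub.Ex9
import Pool.Agent.R567.MSub.Bases

set_option autoImplicit false

/-!
# The matroid subdivision of `Δ(3, 9)` given by the nine lines
-/

namespace Pool.Agent.R567.MSub

open Set

theorem exTr : exchB 9 (fun m => Tr.contains m) Tr = true := by decide +kernel

/-- the uniform matroid of rank three on nine elements -/
def U9 : Matroid (Fin 9) :=
  matOf 9 (fun m => Tr.contains m) Tr (by decide) exTr (fun m hm => by simpa using hm)

theorem U9_isBase {B : Set (Fin 9)} : U9.IsBase B ↔ ∃ m ∈ Tr, B = S 9 m := Iff.rfl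

theorem Tr_card : ∀ m : Fin 512, (Finset.univ.filter fun i : Fin 9 => (m : ℕ).testBit i = true).card = 3
    ↔ (m : ℕ) ∈ Tr := by decide +kernel

theorem ncard_S (m : ℕ) :
    (S 9 m).ncard = (Finset.univ.filter fun i : Fin 9 => m.testBit i = true).card := by
  rw [← Set.ncard_coe_finset]
  congr 1
  ext i
  simp [S]

/-- the masks of the 3-element sets -/
theorem Tr_lt : ∀ m ∈ Tr, m < 512 := by decide +kernel

theorem ncard_iff {B : Set (Fin 9)} : (∃ m ∈ Tr, B = S 9 m) ↔ B.ncard = 3 := by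
  constructor
  · rintro ⟨m, hm, rfl⟩
    rw [ncard_S]
    exact (Tr_card ⟨m, Tr_lt m hm⟩).mpr hm
  · intro h
    obtain ⟨m, hm⟩ : ∃ m, m < 2 ^ 9 ∧ B = S 9 m := by
      classical
      refine ⟨Nat.ofBits (fun i : Fin 9 => decide (i ∈ B)), Nat.ofBits_lt_two_pow _, ?_⟩
      ext i
      rw [mem_S, Nat.testBit_ofBits_lt _ _ i.2]
      simp
    refine ⟨m, ?_, hm.2⟩
    rw [hm.2, ncard_S] at h
    exact (Tr_card ⟨m, by simpa using hm.1⟩).mp h

theorem U9_ncard {B : Set (Fin 9)} : U9.IsBase B ↔ B.ncard = 3 := U9_isBase.trans ncard_iff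

theorem mem_LW {K m : ℕ} : m ∈ LW K ↔ m ∈ Tr ∧ 2 ≤ cnt 9 K m := by
  unfold LW
  rw [List.mem_filter, decide_eq_true_iff]

theorem L0_sub : ∀ m ∈ L0, m ∈ Tr := by decide +kernel

theorem L0_le : ∀ K ∈ K9, ∀ m ∈ L0, cnt 9 K m ≤ 2 := by decide +kernel

theorem L0_eq : ∀ K ∈ K9, ∀ m ∈ Tr, cnt 9 K m = 2 → m ∈ L0 := by decide +kernel

theorem K9_pair : ∀ K ∈ K9, ∀ K' ∈ K9, K ≠ K' → ∀ m ∈ Tr, 2 ≤ cnt 9 K m →
    cnt 9 K m + cnt 9 K' m ≤ 4 := by decide +kernel

theorem φ1_zero : ∀ m ∈ Tr, φ1 m = 0 → m ∈ L0 := by decide +kernel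

theorem chk1' {K m m' : ℕ} (hK : K ∈ K9) (hm : m ∈ Tr) (h : cnt 9 K m = 3) (hm' : m' ∈ Tr)
    (h' : cnt 9 K m' < 2) : exOK 9 Tr φ1 m m' = true := by
  have h0 := chk1
  rw [List.all_eq_true] at h0
  have h1 := h0 K hK
  rw [List.all_eq_true] at h1
  have h2 := h1 m hm
  rw [h] at h2
  simp only [BEq.rfl, Bool.not_true, Bool.false_or] at h2
  rw [List.all_eq_true] at h2
  have h3 := h2 m' hm'
  rw [decide_eq_true h'] at h3
  simpa using h3

theorem chk2' {K m m' : ℕ} (hK : K ∈ K9) (hm : m ∈ Tr) (h : cnt 9 K m < 2) (hm' : m' ∈ Tr)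
    (h' : 2 < cnt 9 K m') : exOK 9 Tr (φ2 K) m m' = true := by
  have h0 := chk2
  rw [List.all_eq_true] at h0
  have h1 := h0 K hK
  rw [List.all_eq_true] at h1
  have h2 := h1 m hm
  rw [decide_eq_true h] at h2
  simp only [Bool.not_true, Bool.false_or] at h2
  rw [List.all_eq_true] at h2
  have h3 := h2 m' hm'
  rw [decide_eq_true h'] at h3
  simpa using h3

theorem cover9 (z : Fin 9 → ℝ) (hz : z ∈ PL 9 Tr) :
    z ∈ PL 9 L0 ∨ ∃ i : {K // K ∈ K9}, z ∈ PL 9 (LW i.1) := by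
  by_cases h : ∀ K ∈ K9, gK 9 K z ≤ 2
  · left
    have h1 := rep Tr φ1 z hz (by
      intro m hm hφ
      have h2 : ∃ K ∈ K9, cnt 9 K m = 3 := by
        unfold φ1 at hφ
        cases hb : (K9.any fun K => cnt 9 K m == 3) with
        | false => rw [hb] at hφ; simp at hφ
        | true =>
          rw [List.any_eq_true] at hb
          obtain ⟨K, hK, hb⟩ := hb
          exact ⟨K, hK, by simpa using hb⟩
      obtain ⟨K, hK, hcnt⟩ := h2
      refine ⟨gK 9 K, 2, h K hK, ?_, ?_⟩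
      · rw [gK_vec, hcnt]
        norm_num
      · intro m' hm' hlt
        rw [gK_vec] at hlt
        exact exOK_spec (chk1' hK hm hcnt hm' (by exact_mod_cast hlt)))
    refine convexHull_mono ?_ h1
    rintro _ ⟨m, hm, hφ, rfl⟩
    exact ⟨m, φ1_zero m hm hφ, rfl⟩
  · right
    push Not at h
    obtain ⟨K, hK, hlt⟩ := h
    refine ⟨⟨K, hK⟩, ?_⟩
    have h1 := rep Tr (φ2 K) z hz (by
      intro m hm hφ
      have hcnt : cnt 9 K m < 2 := by
        unfold φ2 at hφ
        omega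
      refine ⟨-gK 9 K, -2, ?_, ?_, ?_⟩
      · rw [LinearMap.neg_apply]
        linarith
      · rw [LinearMap.neg_apply, gK_vec]
        have : (cnt 9 K m : ℝ) < 2 := by exact_mod_cast hcnt
        linarith
      · intro m' hm' hlt'
        rw [LinearMap.neg_apply, gK_vec] at hlt'
        have : (2 : ℝ) < cnt 9 K m' := by linarith
        exact exOK_spec (chk2' hK hm hcnt hm' (by exact_mod_cast this)))
    refine convexHull_mono ?_ h1
    rintro _ ⟨m, hm, hφ, rfl⟩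
    refine ⟨m, ?_, rfl⟩
    rw [mem_LW]
    unfold φ2 at hφ
    have h2 : 2 ≤ cnt 9 K m := by omega
    exact ⟨hm, h2⟩

/-- the subdivision given by the nine lines -/
def Sig0 : Set (Set (Fin 9 → ℝ)) :=
  {F | IsFace (PL 9 L0) F} ∪ ⋃ i : {K // K ∈ K9}, {F | IsFace (PL 9 (LW i.1)) F}

theorem sig0_subdivision : IsMatroidSubdivision U9 Sig0 := by
  refine subdivision_of_glue (M := U9) (L := Tr) (fun B => U9_isBase) (ι := {K // K ∈ K9}) L0
    (fun i => LW i.1) (fun i => gK 9 i.1) (fun _ => 2) L0_sub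
    (fun i m hm => (mem_LW.mp hm).1) cover9 ?_ ?_ ?_ ?_ ?_ ?_
  · intro i m hm
    rw [gK_vec]
    exact_mod_cast L0_le i.1 i.2 m hm
  · intro i m hm
    rw [gK_vec]
    exact_mod_cast (mem_LW.mp hm).2
  · intro i m
    rw [gK_vec, mem_LW]
    constructor
    · rintro ⟨h1, h2⟩
      have h3 : cnt 9 i.1 m = 2 := by exact_mod_cast h2
      exact ⟨⟨L0_sub m h1, h3.ge⟩, h2⟩
    · rintro ⟨h1, h2⟩
      have h3 : cnt 9 i.1 m = 2 := by exact_mod_cast h2
      exact ⟨L0_eq i.1 i.2 m h1.1 h3, h2⟩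
  · intro i j hne m hm
    rw [gK_vec, gK_vec]
    have h1 := K9_pair i.1 i.2 j.1 j.2 (fun h => hne (Subtype.ext h)) m (mem_LW.mp hm).1
      (mem_LW.mp hm).2
    have h2 : ((cnt 9 i.1 m + cnt 9 j.1 m : ℕ) : ℝ) ≤ (4 : ℕ) := by exact_mod_cast h1
    push_cast at h2
    linarith
  · exact exists_matroid_PL (fun m => L0.contains m) (by decide) ex0
      (fun m hm => by simpa using hm)
  · intro i
    have hne : LW i.1 ≠ [] := by
      have : ∀ K ∈ K9, LW K ≠ [] := by decide +kernel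
      exact this i.1 i.2
    refine exists_matroid_PL (fun m => Tr.contains m && decide (2 ≤ cnt 9 i.1 m)) hne
      (exW i.1 i.2) ?_
    intro m hm
    rw [Bool.and_eq_true, decide_eq_true_iff] at hm
    rw [mem_LW]
    exact ⟨by simpa using hm.1, hm.2⟩

/-- every member of a refinement is on one side of each of the nine hyperplanes -/
theorem sided {C : Set (Set (Fin 9 → ℝ))} (href : Refines C Sig0) {T : Set (Fin 9 → ℝ)}
    (hT : T ∈ C) {K : ℕ} (hK : K ∈ K9) :
    (∀ z ∈ T, gK 9 K z ≤ 2) ∨ (∀ z ∈ T, 2 ≤ gK 9 K z) := by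
  obtain ⟨R, hR, hTR⟩ := href T hT
  rcases hR with hR | hR
  · left
    intro z hz
    refine PL_le (gK 9 K) 2 (fun m hm => ?_) (hR.2.subset (hTR hz))
    rw [gK_vec]
    exact_mod_cast L0_le K hK m hm
  · obtain ⟨i, hi⟩ := mem_iUnion.mp hR
    by_cases h : K = i.1
    · right
      intro z hz
      refine PL_ge (gK 9 K) 2 (fun m hm => ?_) (hi.2.subset (hTR hz))
      rw [gK_vec]
      rw [h]
      exact_mod_cast (mem_LW.mp hm).2
    · left
      intro z hz
      refine PL_le (gK 9 K) 2 (fun m hm => ?_) (hi.2.subset (hTR hz))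
      rw [gK_vec]
      have h1 := K9_pair i.1 i.2 K hK (Ne.symm h) m (mem_LW.mp hm).1 (mem_LW.mp hm).2
      have h2 := (mem_LW.mp hm).2
      have h3 : cnt 9 K m ≤ 2 := by omega
      exact_mod_cast h3

end Pool.Agent.R567.MSub
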